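import Mathlib
import Pool.Agent.Lib.helper3.Chain
import Pool.Agent.H.MP_b041da_pr.A

/-! Simple random walk on the cubic lattice: return probabilities and displacement counts. -/

set_option linter.unusedSectionVars false

namespace Pool.Agent.H.MP_b9fdbf_pr

open MeasureTheory ProbabilityTheory Finset Pool.Agent.Lib.helper3
open scoped ENNReal Classical

abbrev V (d : ℕ) := Fin d → ℤ

abbrev S (d : ℕ) := Fin d × Bool

variable {d : ℕ}

def nrm (x : V d) : ℕ := univ.sup fun i => (x i).natAbs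

lemma nrm_le {x : V d} {r : ℕ} : nrm x ≤ r ↔ ∀ i, (x i).natAbs ≤ r := by simp [nrm]

lemma nrm_add (x y : V d) : nrm (x + y) ≤ nrm x + nrm y := nrm_le.2 fun i =>
  (Int.natAbs_add_le _ _).trans (add_le_add (nrm_le.1 le_rfl i) (nrm_le.1 le_rfl i))

lemma nrm_neg (x : V d) : nrm (-x) = nrm x := by simp [nrm]

lemma nrm_zero : nrm (0 : V d) = 0 := by simp [nrm]

lemma tri (x y z : V d) : nrm (x - z) ≤ nrm (x - y) + nrm (y - z) := by
  simpa using nrm_add (x - y) (y - z)

lemma sy (x y : V d) : nrm (x - y) = nrm (y - x) := by rw [← nrm_neg, neg_sub]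

noncomputable def box (x : V d) (r : ℕ) : Finset (V d) := Icc (fun i => x i - r) fun i => x i + r

lemma mem_box {x y : V d} {r : ℕ} : y ∈ box x r ↔ nrm (y - x) ≤ r := by
  simp only [box, mem_Icc, Pi.le_def, nrm_le, ← forall_and, Pi.sub_apply]
  exact forall_congr' fun i => by omega

lemma card_box (x : V d) (r : ℕ) : (box x r).card = (2 * r + 1) ^ d := by
  rw [box, Pi.card_Icc, prod_congr rfl (g := fun _ => 2 * r + 1) fun i _ => by
    rw [Int.card_Icc]; omega]
  simp

def st (s : S d) : V d := Pi.single s.1 (if s.2 then 1 else -1)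

lemma nrm_st (s : S d) : nrm (st s) ≤ 1 := nrm_le.2 fun i => by
  simp only [st, Pi.single_apply]
  split_ifs <;> simp

def X (n : ℕ) (ω : ℕ → S d) : V d := ∑ k ∈ range n, st (ω k)

lemma X_succ (n : ℕ) (ω : ℕ → S d) : X (n + 1) ω = X n ω + st (ω n) := sum_range_succ _ _

lemma nrm_X (n : ℕ) (ω : ℕ → S d) : nrm (X n ω) ≤ n := by
  induction n with
  | zero => simp [X, nrm_zero]
  | succ n ih => rw [X_succ]; exact (nrm_add _ _).trans (add_le_add ih (nrm_st _))

lemma mX (n : ℕ) : Measurable (X (d := d) n) := Finset.measurable_fun_sum _ fun k _ =>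
  (measurable_of_countable st).comp (measurable_pi_apply k)

noncomputable abbrev u (d : ℕ) : Measure (S d) := uniformOn Set.univ

noncomputable abbrev σ (d : ℕ) : Measure (ℕ → S d) := Measure.infinitePi fun _ => u d

variable [NeZero d]

lemma u_single (s : S d) : u d {s} = (d : ℝ≥0∞)⁻¹ * 2⁻¹ := by
  simp [uniformOn_univ, ENNReal.mul_inv]

lemma int_u (f : S d → ℝ≥0∞) :
    ∫⁻ s, f s ∂u d = (d : ℝ≥0∞)⁻¹ * ∑ i, 2⁻¹ * (f (i, true) + f (i, false)) := by
  simp only [lintegral_fintype, u_single, Fintype.sum_prod_type, Fintype.sum_bool, mul_sum]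
  exact sum_congr rfl fun i _ => by ring

lemma stepX (n : ℕ) (f : V d → ℝ≥0∞) :
    ∫⁻ ω, f (X (n + 1) ω) ∂σ d = ∫⁻ ω, ∫⁻ s, f (X n ω + st s) ∂u d ∂σ d := by
  simp only [X_succ]
  exact MC.indep_past (u d) n (X n) (mX n)
    (fun ω ω' h => sum_congr rfl fun k hk => by rw [h k (mem_range.1 hk)])
    (fun z => f (z.1 + st z.2)) (measurable_of_countable _)

lemma shift (a n : ℕ) (f : V d → ℝ≥0∞) :
    ∫⁻ ω, f (X (a + n) ω - X a ω) ∂σ d = ∫⁻ ω, f (X n ω) ∂σ d := by
  have h : MeasurePreserving (fun (ω : ℕ → S d) k => ω (a + k)) (σ d) (σ d) :=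
    ⟨by fun_prop, Measure.map_infinitePi_infinitePi_of_inj (add_right_injective a)⟩
  rw [← h.lintegral_comp (f := fun ω => f (X n ω)) ((measurable_of_countable f).comp (mX n))]
  simp [X, sum_range_add]

lemma flip (n : ℕ) (f : V d → ℝ≥0∞) : ∫⁻ ω, f (-X n ω) ∂σ d = ∫⁻ ω, f (X n ω) ∂σ d := by
  have h0 : (u d).map (fun s => (s.1, !s.2)) = u d := Measure.ext_of_lintegral _ fun g hg => by
    rw [lintegral_map hg (measurable_of_countable _), int_u, int_u]
    simp [add_comm]
  have h : MeasurePreserving (fun (ω : ℕ → S d) k => ((ω k).1, !(ω k).2)) (σ d) (σ d) :=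
    ⟨measurable_pi_lambda _ fun k => (measurable_of_countable fun s : S d => (s.1, !s.2)).comp
      (measurable_pi_apply k), by
      rw [Measure.infinitePi_map_pi _ fun _ => measurable_of_countable fun s : S d => (s.1, !s.2)]
      simp only [h0]⟩
  rw [← h.lintegral_comp (f := fun ω => f (X n ω)) ((measurable_of_countable f).comp (mX n))]
  refine lintegral_congr fun ω => congrArg f ?_
  rw [X, X, ← sum_neg_distrib]
  refine sum_congr rfl fun k _ => ?_
  cases h : (ω k).2 <;> simp [st, h, Pi.single_neg]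

lemma inc (a b : ℕ) (f : V d → ℝ≥0∞) :
    ∫⁻ ω, f (X b ω - X a ω) ∂σ d = ∫⁻ ω, f (X (Nat.dist a b) ω) ∂σ d := by
  rcases le_total a b with h | h
  · rw [Nat.dist_eq_sub_of_le h, ← shift a, Nat.add_sub_cancel' h]
  · rw [Nat.dist_eq_sub_of_le_right h, ← flip, ← shift b _ fun x => f (-x), Nat.add_sub_cancel' h]
    simp

noncomputable def p (n : ℕ) (x : V d) : ℝ≥0∞ := ∫⁻ ω, (if X n ω = x then 1 else 0) ∂σ d

lemma p_conv (a b : ℕ) : ∫⁻ ω, p a (X b ω) ∂σ d = p (b + a) (0 : V d) := by
  induction b generalizing a with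
  | zero => simp [X]
  | succ b ih =>
    rw [stepX, show b + 1 + a = b + (a + 1) by ring, ← ih]
    refine lintegral_congr fun ω => ?_
    have := flip (a + 1) fun y => if y = X b ω then 1 else 0
    rw [p, ← this, stepX a fun y => if -y = X b ω then 1 else 0,
      lintegral_lintegral_swap (Measurable.aemeasurable (by
        exact (measurable_of_countable fun z : V d × S d =>
          if -(z.1 + st z.2) = X b ω then (1 : ℝ≥0∞) else 0).comp ((mX a).prodMap measurable_id)))]
    refine lintegral_congr fun s => ?_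
    rw [p, ← flip a fun y => if y = X b ω + st s then 1 else 0]
    refine lintegral_congr fun ω' => if_congr ?_ rfl rfl
    rw [neg_add, ← sub_eq_add_neg, sub_eq_iff_eq_add]

noncomputable def q : ℕ → ℤ → ℝ
  | 0, k => if k = 0 then 1 else 0
  | n + 1, k => (q n (k + 1) + q n (k + -1)) / 2

lemma q_nonneg (n : ℕ) : ∀ k, 0 ≤ q n k := by
  induction n with
  | zero => intro k; simp only [q]; split_ifs <;> norm_num
  | succ n ih => intro k; simp only [q]; have := ih (k + 1); have := ih (k + -1); positivity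

lemma q_even (n : ℕ) : ∀ k, q (2 * n) (2 * k) = MP_b041da_pr.a n k ∧ q (2 * n) (2 * k + 1) = 0 := by
  induction n with
  | zero => intro k; simp [q, MP_b041da_pr.a]; omega
  | succ n ih =>
    intro k
    simp only [mul_add 2 n, mul_one, q, MP_b041da_pr.a]
    rw [show 2 * k + 1 + 1 = 2 * (k + 1) by ring, show 2 * k + 1 + -1 = 2 * k by ring,
      show 2 * k + -1 + 1 = 2 * k by ring, show 2 * k + -1 + -1 = 2 * (k - 1) by ring,
      show 2 * (k + 1) + -1 = 2 * k + 1 by ring, show 2 * k + -1 = 2 * (k - 1) + 1 by ring]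
    simp only [ih]
    constructor <;> ring

lemma q_le (n : ℕ) (k : ℤ) : q n k ^ 2 ≤ 2 / (n + 1) := by
  have h1 : ∀ n k, q (2 * n) k ≤ MP_b041da_pr.a n 0 := fun n k => by
    obtain ⟨j, rfl | rfl⟩ := k.even_or_odd'
    · rw [(q_even n j).1]; exact MP_b041da_pr.a_le0 n j
    · rw [(q_even n j).2]; exact MP_b041da_pr.a_nonneg n 0
  obtain ⟨j, h2, h3⟩ : ∃ j : ℕ, n ≤ 2 * j + 1 ∧ q n k ≤ MP_b041da_pr.a j 0 := by
    obtain ⟨j, rfl | rfl⟩ := n.even_or_odd'
    · exact ⟨j, by omega, h1 j k⟩
    · exact ⟨j, le_rfl, by rw [q]; linarith [h1 j (k + 1), h1 j (k + -1)]⟩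
  have h4 := MP_b041da_pr.a_zero j
  have h5 : (n : ℝ) ≤ 2 * j + 1 := by exact_mod_cast h2
  have h6 := pow_le_pow_left₀ (q_nonneg n k) h3 2
  rw [le_div_iff₀ (by positivity)]
  nlinarith [sq_nonneg (q n k), j.cast_nonneg (α := ℝ)]

lemma p_aux (n : ℕ) : ∀ (j : Fin d → ℕ), ∫⁻ ω, ENNReal.ofReal (∏ i, q (j i) (X n ω i)) ∂σ d ≤
    ENNReal.ofReal √(∏ i, 2 / (j i + 1 + n / (2 * d) : ℝ)) := by
  have hd : (0 : ℝ) < d := by exact_mod_cast NeZero.pos d
  induction n with
  | zero =>
    intro j
    simp only [X, range_zero, sum_empty, lintegral_const, measure_univ, mul_one]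
    refine ENNReal.ofReal_le_ofReal (Real.le_sqrt_of_sq_le ?_)
    rw [← prod_pow]
    exact prod_le_prod (fun _ _ => sq_nonneg _) fun i _ => by simpa using q_le _ _
  | succ n ih =>
    intro j
    have e : ∀ (x : V d) (i : Fin d), 2⁻¹ * (ENNReal.ofReal (∏ l, q (j l) ((x + st (i, true)) l)) +
        ENNReal.ofReal (∏ l, q (j l) ((x + st (i, false)) l))) =
        ENNReal.ofReal (∏ l, q (Function.update j i (j i + 1) l) (x l)) := fun x i => by
      have h : ∀ (j : Fin d → ℕ) (x : V d), 0 ≤ ∏ l, q (j l) (x l) :=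
        fun j x => prod_nonneg fun _ _ => q_nonneg _ _
      rw [← ENNReal.ofReal_add (h _ _) (h _ _), ← ENNReal.ofReal_ofNat,
        ← ENNReal.ofReal_inv_of_pos two_pos, ← ENNReal.ofReal_mul (by norm_num)]
      have h1 : ∀ b, ∏ l ∈ univ.erase i, q (j l) ((x + st (i, b)) l) =
          ∏ l ∈ univ.erase i, q (j l) (x l) := fun b => prod_congr rfl fun l hl => by
        simp [st, ne_of_mem_erase hl]
      have h2 : ∏ l ∈ univ.erase i, q (Function.update j i (j i + 1) l) (x l) =
          ∏ l ∈ univ.erase i, q (j l) (x l) := prod_congr rfl fun l hl => by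
        simp [ne_of_mem_erase hl]
      simp only [← mul_prod_erase univ _ (mem_univ i), Function.update_self, q, h1, h2]
      simp only [st, Pi.add_apply, Pi.single_eq_same, if_true, Bool.false_eq_true, if_false]
      congr 1
      ring
    have m : ∀ i, Measurable fun ω => ENNReal.ofReal
        (∏ l, q (Function.update j i (j i + 1) l) (X n ω l)) := fun i =>
      (measurable_of_countable fun x : V d => ENNReal.ofReal
        (∏ l, q (Function.update j i (j i + 1) l) (x l))).comp (mX n)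
    rw [stepX n fun x => ENNReal.ofReal (∏ i, q (j i) (x i))]
    simp only [int_u, e]
    rw [lintegral_const_mul _ (Finset.measurable_fun_sum _ fun i _ => m i),
      lintegral_finsetSum _ fun i _ => m i]
    refine (mul_le_mul_right (sum_le_sum fun i _ => ih _) _).trans ?_
    rw [← ENNReal.ofReal_sum_of_nonneg fun _ _ => Real.sqrt_nonneg _, ← ENNReal.ofReal_natCast,
      ← ENNReal.ofReal_inv_of_pos hd, ← ENNReal.ofReal_mul (by positivity)]
    refine ENNReal.ofReal_le_ofReal (Real.le_sqrt_of_sq_le ?_)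
    set y : Fin d → ℝ := fun i => j i + 1 + n / (2 * d) with hy
    have y1 : ∀ i, 1 ≤ y i := fun i => by
      have : (0 : ℝ) ≤ j i + n / (2 * d) := by positivity
      simp only [hy]; linarith
    have y0 : ∀ i, 0 < y i := fun i => one_pos.trans_le (y1 i)
    have e2 : ∀ i, ∏ l, 2 / ((Function.update j i (j i + 1) l : ℕ) + 1 + n / (2 * d) : ℝ) =
        (∏ l, 2 / y l) * (1 - 1 / (y i + 1)) := fun i => by
      rw [← mul_prod_erase univ _ (mem_univ i), ← mul_prod_erase univ _ (mem_univ i),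
        prod_congr rfl (g := fun l => 2 / y l) fun l hl => by simp [hy, ne_of_mem_erase hl],
        Function.update_self, show ((j i + 1 : ℕ) + 1 + n / (2 * d) : ℝ) = y i + 1 by
          simp only [hy]; push_cast; ring]
      have := y0 i
      field_simp
      ring
    have e3 : ∏ l, 2 / (j l + 1 + (n + 1 : ℕ) / (2 * d) : ℝ) =
        (∏ l, 2 / y l) * ∏ l, (1 - 1 / (2 * d * y l + 1)) := by
      rw [← prod_mul_distrib]
      refine prod_congr rfl fun l _ => ?_
      have := y0 l
      rw [show (j l + 1 + (n + 1 : ℕ) / (2 * d) : ℝ) = y l + 1 / (2 * d) by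
        simp only [hy]; push_cast; ring]
      field_simp
      ring
    have P0 : 0 ≤ ∏ l, 2 / y l := prod_nonneg fun l _ => by have := y0 l; positivity
    have e4 := sq_sum_le_card_mul_sum_sq (s := univ)
      (f := fun i => √((∏ l, 2 / y l) * (1 - 1 / (y i + 1))))
    rw [sum_congr rfl fun i _ => Real.sq_sqrt (mul_nonneg P0 (by
      have := y0 i
      rw [sub_nonneg, div_le_one (by positivity)]; linarith)), ← mul_sum, sum_sub_distrib] at e4
    have e5 : ∀ s : Finset (Fin d),
        1 - ∑ l ∈ s, 1 / (2 * d * y l + 1) ≤ ∏ l ∈ s, (1 - 1 / (2 * d * y l + 1)) := fun s => by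
      have h : ∀ l, 0 ≤ 1 / (2 * d * y l + 1) ∧ 1 / (2 * d * y l + 1) ≤ 1 := fun l => by
        have := y0 l
        exact ⟨by positivity, by rw [div_le_one (by positivity)]; nlinarith⟩
      induction s using Finset.induction_on with
      | empty => simp
      | insert a s ha ih =>
        rw [sum_insert ha, prod_insert ha]
        have := sum_nonneg fun l (_ : l ∈ s) => (h l).1
        nlinarith [h a, mul_le_mul_of_nonneg_left ih (sub_nonneg.2 (h a).2), mul_nonneg this (h a).1]
    replace e5 := e5 univ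
    have e6 : d * ∑ l, 1 / (2 * d * y l + 1) ≤ ∑ l, 1 / (y l + 1) := by
      rw [mul_sum]
      refine sum_le_sum fun l _ => ?_
      have := y1 l
      rw [mul_one_div, div_le_div_iff₀ (by positivity) (by positivity)]
      nlinarith
    simp only [e2, e3, sum_const, card_univ, Fintype.card_fin, nsmul_eq_mul, mul_one] at e4 ⊢
    rw [mul_pow, inv_pow, inv_mul_le_iff₀ (by positivity)]
    refine e4.trans ?_
    rw [pow_two, mul_assoc, mul_left_comm (d : ℝ) (∏ l, 2 / y l) (∏ l, _)]
    gcongr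
    nlinarith

lemma p_le (n : ℕ) : p n (0 : V d) ≤ ENNReal.ofReal √((4 * d / (n + 1)) ^ d) := by
  have hd : (1 : ℝ) ≤ d := by exact_mod_cast NeZero.one_le
  refine le_trans (lintegral_mono fun ω => ?_) ((p_aux n 0).trans ?_)
  · split_ifs with h <;> simp [h, q]
  · simp only [Pi.zero_apply, Nat.cast_zero, zero_add, prod_const, card_univ, Fintype.card_fin]
    gcongr ENNReal.ofReal √(?_ ^ d)
    rw [div_le_div_iff₀ (by positivity) (by positivity)]
    field_simp
    nlinarith

end Pool.Agent.H.MP_b9fdbf_pr
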