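import Mathlib
import Pool.Agent.H.MP_b9fdbf_pr.A

/-! Sausage volume, energy and hitting estimates for simple random walk. -/

set_option linter.unusedSectionVars false

namespace Pool.Agent.H.MP_b9fdbf_pr

open MeasureTheory ProbabilityTheory Finset Pool.Agent.Lib.helper3
open scoped ENNReal Classical

variable {d : ℕ} [NeZero d]

def N2 (x : V d) : ℕ := ∑ i, (x i).natAbs ^ 2

lemma N2_st (x : V d) (i : Fin d) : (N2 (x + st (i, true)) : ℤ) = N2 x + 1 + 2 * x i ∧
    (N2 (x + st (i, false)) : ℤ) = N2 x + 1 - 2 * x i ∧ x i ^ 2 ≤ N2 x := by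
  have h1 : ∀ b, ∑ l ∈ univ.erase i, (x + st (i, b)) l ^ 2 = ∑ l ∈ univ.erase i, x l ^ 2 :=
    fun b => sum_congr rfl fun l hl => by simp [st, ne_of_mem_erase hl]
  have h2 : 0 ≤ ∑ l ∈ univ.erase i, x l ^ 2 := sum_nonneg fun _ _ => sq_nonneg _
  simp only [N2, Nat.cast_sum, Nat.cast_pow, Int.natCast_natAbs, sq_abs]
  simp only [← add_sum_erase univ _ (mem_univ i), h1]
  simp only [st, Pi.add_apply, Pi.single_eq_same, if_true, Bool.false_eq_true, if_false]
  exact ⟨by ring, by ring, by linarith⟩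

lemma N2_ge {x : V d} {r : ℕ} (h : r ≤ nrm x) : r ^ 2 ≤ N2 x := by
  obtain ⟨i, -, hi⟩ := exists_mem_eq_sup univ univ_nonempty fun i => (x i).natAbs
  exact (Nat.pow_le_pow_left (h.trans_eq hi) 2).trans
    (single_le_sum (f := fun i => (x i).natAbs ^ 2) (fun _ _ => zero_le) (mem_univ i))

def nx (r : ℕ) (z : (V d × ℕ) × S d) : V d × ℕ :=
  if r ≤ nrm (z.1.1 + st z.2) then (0, z.1.2 + 1) else (z.1.1 + st z.2, z.1.2)

def ch (r t : ℕ) (ω : ℕ → S d) : V d × ℕ := Chain.Y (nx r) t ((0, 0), ω)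

lemma mch (r t : ℕ) : Measurable (ch (d := d) r t) :=
  (Chain.mY (measurable_of_countable _) t).comp measurable_prodMk_left

lemma count (r ρ : ℕ) (Φ : ℕ → V d → ℕ)
    (h1 : ∀ m z i, Φ m (z + st (i, true)) + Φ m (z + st (i, false)) ≤ 2 * Φ (m + 1) z)
    (h2 : ∀ m z, r ≤ nrm z → ρ + Φ m 0 ≤ Φ m z) (t : ℕ) :
    ρ * ∫⁻ ω, ((ch r t ω).2 : ℝ≥0∞) ∂σ d ≤ Φ t 0 := by
  have : ∀ m, ∫⁻ ω, ((ρ * (ch r t ω).2 + Φ m (ch r t ω).1 : ℕ) : ℝ≥0∞) ∂σ d ≤ Φ (m + t) 0 := by
    induction t with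
    | zero => intro m; simp [ch, Chain.Y]
    | succ t ih =>
      intro m
      refine (MC.indep_past (u d) t (ch r t) (mch r t) (Chain.depY t _)
        (fun z => ((ρ * (nx r z).2 + Φ m (nx r z).1 : ℕ) : ℝ≥0∞))
        (measurable_of_countable _)).trans_le (le_trans (lintegral_mono fun ω => ?_)
          ((ih (m + 1)).trans_eq (by rw [add_right_comm, add_assoc])))
      generalize ch r t ω = z
      have a : ∀ s, ρ * (nx r (z, s)).2 + Φ m (nx r (z, s)).1 ≤ ρ * z.2 + Φ m (z.1 + st s) :=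
        fun s => by
          unfold nx
          split_ifs with h
          · have := h2 m _ h
            dsimp only at this ⊢
            linarith
          · rfl
      rw [int_u]
      refine (mul_le_mul_right (sum_le_card_nsmul _ _
        ((ρ * z.2 + Φ (m + 1) z.1 : ℕ) : ℝ≥0∞) fun i _ => ?_) _).trans ?_
      · rw [ENNReal.inv_mul_le_iff (by simp) (by simp)]
        have := a (i, true)
        have := a (i, false)
        have := h1 m z.1 i
        norm_cast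
        linarith
      · rw [card_univ, Fintype.card_fin, nsmul_eq_mul, ← mul_assoc,
          ENNReal.inv_mul_cancel (by simpa using NeZero.ne d) (by simp), one_mul]
  rw [← lintegral_const_mul' _ _ (by simp)]
  refine le_trans (lintegral_mono fun ω => ?_) ((this 0).trans_eq (by rw [zero_add]))
  push_cast
  exact le_self_add

lemma cnt1 (r t : ℕ) : (r ^ 2 : ℕ) * ∫⁻ ω, ((ch r t ω).2 : ℝ≥0∞) ∂σ d ≤ t := by
  have h0 : N2 (0 : V d) = 0 := by simp [N2]
  exact (count r (r ^ 2) (fun m (z : V d) => N2 z + m) (fun m z i => by have := N2_st z i; omega)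
    (fun m z h => by have := N2_ge h; omega) t).trans_eq (by rw [h0, zero_add])

lemma cnt3 (r t : ℕ) : (r ^ 6 : ℕ) * ∫⁻ ω, ((ch r t ω).2 : ℝ≥0∞) ∂σ d ≤ (125 * t ^ 3 : ℕ) := by
  have h0 : N2 (0 : V d) = 0 := by simp [N2]
  refine (count r (r ^ 6) (fun m (z : V d) => (N2 z + 5 * m) ^ 3) (fun m z i => ?_)
    (fun m z h => ?_) t).trans_eq (by rw [h0]; congr 1; ring)
  · obtain ⟨h1, h2, h3⟩ := N2_st z i
    zify
    rw [h1, h2]
    have a : (0 : ℤ) ≤ m := m.cast_nonneg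
    have b : (0 : ℤ) ≤ N2 z := (N2 z).cast_nonneg
    generalize (N2 z : ℤ) = v at *
    nlinarith [mul_le_mul_of_nonneg_left h3 (by positivity : 0 ≤ v + 5 * m + 1), mul_nonneg a b,
      mul_nonneg a a]
  · have := Nat.pow_le_pow_left (N2_ge h) 3
    rw [h0, zero_add, show r ^ 6 = (r ^ 2) ^ 3 by ring]
    exact (add_le_add_left this _).trans (pow_add_pow_le zero_le zero_le (by norm_num))

lemma ch_inv {r : ℕ} (hr : 0 < r) (R : ℕ) (x : V d) (ω : ℕ → S d) (t : ℕ) :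
    ((ch r t ω).2 = 0 → (ch r t ω).1 = X t ω ∧ ∀ s ≤ t, nrm (X s ω) < r) ∧
    ∃ F : Finset (V d), F.card ≤ ((ch r t ω).2 + 1) * (2 * (R + r) + 1) ^ d ∧
      box (x + (ch r t ω).1 - X t ω) (R + r) ⊆ F ∧
        ∀ s ≤ t, ∀ y, nrm (y + X s ω - x) ≤ R → y ∈ F := by
  induction t with
  | zero =>
    refine ⟨fun _ => ⟨rfl, fun s hs => by simpa [Nat.le_zero.1 hs, X, nrm_zero]⟩, _,
      by simp [card_box], Subset.rfl, fun s hs y hy => mem_box.2 ?_⟩
    simp only [Nat.le_zero.1 hs, X, ch, Chain.Y, range_zero, sum_empty, add_zero, sub_zero] at hy ⊢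
    omega
  | succ t ih =>
    obtain ⟨h1, F, h2, h3, h4⟩ := ih
    rw [show ch r (t + 1) ω = nx r (ch r t ω, ω t) from rfl]
    generalize ch r t ω = z at *
    unfold nx
    split_ifs with h
    · refine ⟨by simp, F ∪ box (x + 0 - X (t + 1) ω) (R + r), ?_, subset_union_right,
        fun s hs y hy => ?_⟩
      · refine (card_union_le _ _).trans ?_
        rw [card_box]
        dsimp only
        linarith
      · rcases Nat.le_succ_iff.1 hs with hs | rfl
        · exact mem_union_left _ (h4 s hs y hy)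
        · refine mem_union_right _ (mem_box.2 ?_)
          rw [show y - (x + 0 - X (t + 1) ω) = y + X (t + 1) ω - x by abel]
          exact le_add_right hy
    · dsimp only at h ⊢
      refine ⟨fun h0 => ⟨by rw [X_succ, (h1 h0).1], fun s hs => ?_⟩, F, h2, ?_, fun s hs y hy => ?_⟩
      · rcases Nat.le_succ_iff.1 hs with hs | rfl
        · exact (h1 h0).2 s hs
        · rw [X_succ, ← (h1 h0).1]; omega
      · rwa [X_succ, show x + (z.1 + st (ω t)) - (X t ω + st (ω t)) = x + z.1 - X t ω by abel]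
      · rcases Nat.le_succ_iff.1 hs with hs | rfl
        · exact h4 s hs y hy
        · refine h3 (mem_box.2 ?_)
          have := tri (y + X (t + 1) ω - x) 0 (z.1 + st (ω t))
          rw [sub_zero, zero_sub, nrm_neg] at this
          rw [show y - (x + z.1 - X t ω) = y + X (t + 1) ω - x - (z.1 + st (ω t)) by
            rw [X_succ]; abel]
          exact this.trans (add_le_add hy (not_le.1 h).le)

noncomputable def tr (n : ℕ) (ω : ℕ → S d) : Finset (V d) := (range (n + 1)).image fun t => X t ω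

instance : MeasurableSpace (Finset (V d)) := ⊤

instance : MeasurableSingletonClass (Finset (V d)) := ⟨fun _ => trivial⟩

lemma mtr (n : ℕ) : Measurable (tr (d := d) n) := by
  convert (measurable_of_countable fun w : Fin (n + 1) → V d => univ.image w).comp
    (measurable_pi_lambda (fun ω (t : Fin (n + 1)) => X t ω) fun t => mX t) with ω
  ext ω y
  simp [tr, Fin.exists_iff]

lemma sausage {r : ℕ} (hr : 0 < r) (n : ℕ) (x : V d) :
    ∑' y, σ d {ω | (∃ a ∈ tr n ω, r ≤ nrm a) ∧ ∃ a ∈ tr n ω, nrm (y + a - x) ≤ 30 * r} ≤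
      (2 * (63 * r) ^ d : ℕ) * ∫⁻ ω, ((ch r n ω).2 : ℝ≥0∞) ∂σ d := by
  have m : ∀ y, MeasurableSet
      {ω | (∃ a ∈ tr n ω, r ≤ nrm a) ∧ ∃ a ∈ tr n ω, nrm (y + a - x) ≤ 30 * r} := fun y =>
    mtr n (t := {A | (∃ a ∈ A, r ≤ nrm a) ∧ ∃ a ∈ A, nrm (y + a - x) ≤ 30 * r}) trivial
  simp only [← lintegral_indicator_one (m _)]
  rw [← lintegral_tsum fun y => (measurable_one.indicator (m y)).aemeasurable,
    ← lintegral_const_mul' _ _ (ENNReal.natCast_ne_top _)]
  refine lintegral_mono fun ω => ?_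
  obtain ⟨h1, F, h2, -, h4⟩ := ch_inv hr (30 * r) x ω n
  simp only [tr, mem_image, mem_range, Nat.lt_succ_iff, exists_exists_and_eq_and]
  by_cases h : (ch r n ω).2 = 0
  · rw [tsum_congr fun y => Set.indicator_of_notMem
      (by exact fun ⟨⟨t, a, b⟩, _⟩ => absurd ((h1 h).2 t a) (not_lt.2 b)) _]
    simp
  · rw [tsum_eq_sum (s := F) fun y hy => Set.indicator_of_notMem
      (by exact fun ⟨_, t, a, b⟩ => hy (h4 t a y b)) _]
    refine (sum_le_card_nsmul _ _ 1 fun y _ => Set.indicator_le_self _ _ ω).trans ?_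
    have : (2 * (30 * r + r) + 1) ^ d ≤ (63 * r) ^ d := Nat.pow_le_pow_left (by omega) d
    rw [nsmul_one]
    norm_cast
    exact h2.trans ((Nat.mul_le_mul (show _ ≤ 2 * (ch r n ω).2 by omega) this).trans_eq (by ring))

lemma dist_sum (T : ℕ) (f : ℕ → ℝ≥0∞) :
    ∑ a ∈ range T, ∑ b ∈ range T, f (Nat.dist a b) ≤ 2 * T * ∑ u ∈ range T, f u := by
  refine (sum_le_card_nsmul _ _ (2 * ∑ u ∈ range T, f u) fun a ha => ?_).trans_eq
    (by rw [card_range, nsmul_eq_mul]; ring)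
  rw [← sum_filter_add_sum_filter_not _ (· ≤ a), two_mul]
  refine add_le_add ?_ ?_ <;> rw [← sum_image (g := Nat.dist a) fun x hx y hy h => by
    simp only [coe_filter, Set.mem_ofPred_eq, Nat.dist] at *; omega] <;>
    refine sum_le_sum_of_subset fun u hu => ?_ <;>
    simp only [mem_image, mem_filter, mem_range, Nat.dist] at * <;> omega

lemma harm (j : ℕ) : ∑ u ∈ range (2 ^ j), (u + 1 : ℝ≥0∞)⁻¹ ≤ j + 1 := by
  induction j with
  | zero => simp
  | succ j ih =>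
    rw [pow_succ, mul_two, sum_range_add]
    push_cast
    refine add_le_add ih ((sum_le_card_nsmul _ _ (2 ^ j)⁻¹ fun u _ => ?_).trans ?_)
    · gcongr
      exact le_add_right le_self_add
    · simp [ENNReal.mul_inv_cancel]

noncomputable def En (k : ℕ) (w : ℕ → V d) : ℝ≥0∞ :=
  ∑ s ∈ range (4 ^ k), ∑ s' ∈ range (4 ^ k), ∑ t ∈ range (4 ^ (k + 1)), p t (w s' - w s)

def κ (d k : ℕ) : ℕ := 48 * (256 * 2 ^ ((k + 2) * (4 - d))) * (k + 1) ^ 2

lemma mEn (k : ℕ) : Measurable fun ω : ℕ → S d => En k fun t => X t ω :=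
  Finset.measurable_fun_sum _ fun s _ => Finset.measurable_fun_sum _ fun s' _ =>
    (measurable_of_countable fun x => ∑ t ∈ range (4 ^ (k + 1)), p t x).comp ((mX s').sub (mX s))

lemma E_En (hd : d ≤ 4) (k : ℕ) : 4 * ∫⁻ ω, (En k fun t => X t ω) ∂σ d ≤ 4 ^ k * κ d k := by
  have m : ∀ s s', Measurable fun ω : ℕ → S d =>
      ∑ t ∈ range (4 ^ (k + 1)), p t (X s' ω - X s ω) := fun s s' =>
    (measurable_of_countable fun x => ∑ t ∈ range (4 ^ (k + 1)), p t x).comp ((mX s').sub (mX s))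
  have e : ∀ s s', ∫⁻ ω, ∑ t ∈ range (4 ^ (k + 1)), p t (X s' ω - X s ω) ∂σ d =
      ∑ t ∈ range (4 ^ (k + 1)), p (Nat.dist s s' + t) (0 : V d) := fun s s' => by
    rw [inc s s' fun x => ∑ t ∈ range (4 ^ (k + 1)), p t x,
      lintegral_finsetSum (f := fun t ω => p t (X (Nat.dist s s') ω)) _ fun t _ =>
        (measurable_of_countable (p t)).comp (mX _)]
    simp only [p_conv]
  have b : ∀ a ∈ range (4 ^ k), ∀ t ∈ range (4 ^ (k + 1)), p (a + t) (0 : V d) ≤
      (256 * 2 ^ ((k + 2) * (4 - d)) : ℕ) * (a + 1 : ℝ≥0∞)⁻¹ * (t + 1 : ℝ≥0∞)⁻¹ := by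
    intro a ha t ht
    have h1 : a + t + 1 ≤ 4 ^ (k + 2) := by
      rw [mem_range] at ha ht
      rw [pow_succ] at ht
      rw [pow_add]
      omega
    have h2 : (4 * d) ^ d * ((a + 1) * (t + 1)) ^ 2 ≤
        (256 * 2 ^ ((k + 2) * (4 - d))) ^ 2 * (a + t + 1) ^ d := by
      calc _ ≤ 16 ^ 4 * ((a + t + 1) ^ 2) ^ 2 := by
            gcongr ?_ * ?_ ^ 2
            · exact (Nat.pow_le_pow_left (by omega) d).trans (Nat.pow_le_pow_right (by omega) hd)
            · nlinarith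
        _ = 16 ^ 4 * (a + t + 1) ^ (4 - d) * (a + t + 1) ^ d := by
            rw [mul_assoc, ← pow_add, Nat.sub_add_cancel hd, ← pow_mul]
        _ ≤ 16 ^ 4 * (4 ^ (k + 2)) ^ (4 - d) * (a + t + 1) ^ d := by gcongr
        _ = _ := by rw [← pow_mul, show 4 = 2 ^ 2 from rfl, ← pow_mul, mul_pow, ← pow_mul]; ring
    refine (p_le _).trans ?_
    rw [mul_assoc, ← ENNReal.mul_inv (by simp) (by simp), ← div_eq_mul_inv, ← Nat.cast_succ a,
      ← Nat.cast_succ t, ← Nat.cast_mul, ← ENNReal.ofReal_natCast, ← ENNReal.ofReal_natCast,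
      ← ENNReal.ofReal_div_of_pos (by positivity)]
    refine ENNReal.ofReal_le_ofReal (Real.sqrt_le_iff.2 ⟨by positivity, ?_⟩)
    rw [div_pow, div_pow, div_le_div_iff₀ (by positivity) (by positivity)]
    exact_mod_cast h2
  have h1 := harm (2 * k)
  have h2 := harm (2 * (k + 1))
  rw [pow_mul, show 2 ^ 2 = 4 from rfl] at h1 h2
  unfold En
  rw [lintegral_finsetSum _ fun s _ => Finset.measurable_fun_sum _ fun s' _ => m s s']
  simp only [lintegral_finsetSum _ fun s' _ => m _ s', e]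
  refine (mul_le_mul_right ((dist_sum _ fun a => ∑ t ∈ range (4 ^ (k + 1)), p (a + t) 0).trans
    (mul_le_mul_right (sum_le_sum fun a ha => sum_le_sum (b a ha)) _)) _).trans ?_
  simp only [← mul_sum, ← sum_mul, κ]
  refine (mul_le_mul_right (mul_le_mul_right (mul_le_mul' (mul_le_mul_right h1 _) h2) _) _).trans ?_
  generalize 256 * 2 ^ ((k + 2) * (4 - d)) = A
  norm_cast
  calc _ = 4 ^ k * (8 * A * ((2 * k + 1) * (2 * (k + 1) + 1))) := by ring
    _ ≤ 4 ^ k * (8 * A * (6 * (k + 1) ^ 2)) := by gcongr _ * (_ * ?_); nlinarith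
    _ = _ := by ring

def Γ (d : ℕ) [NeZero d] (k : ℕ) : Set (ℕ → S d) :=
  {ω | (∀ t ≤ 4 ^ k, nrm (X t ω) < 2 * 2 ^ k) ∧ (En k fun t => X t ω) ≤ 4 ^ k * κ d k}

lemma mΓ (k : ℕ) : MeasurableSet (Γ d k) := by
  refine MeasurableSet.inter (s₁ := {ω | ∀ t ≤ 4 ^ k, nrm (X t ω) < 2 * 2 ^ k}) ?_
    (measurableSet_le (mEn k) measurable_const)
  simp only [Set.ofPred_forall]
  exact .iInter fun t => .iInter fun _ => mX t (t := {x | nrm x < 2 * 2 ^ k}) .of_discrete

lemma P_Γ (hd : d ≤ 4) (k : ℕ) : 1 ≤ 2 * σ d (Γ d k) := by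
  have h1 : 4 * σ d {ω | 1 ≤ ((ch (2 * 2 ^ k) (4 ^ k) ω).2 : ℝ≥0∞)} ≤ 1 := by
    have a := mul_meas_ge_le_lintegral (μ := σ d) ((measurable_of_countable fun z : V d × ℕ =>
      (z.2 : ℝ≥0∞)).comp (mch (2 * 2 ^ k) (4 ^ k))) 1
    have b := cnt1 (d := d) (2 * 2 ^ k) (4 ^ k)
    rw [show (2 * 2 ^ k) ^ 2 = 4 ^ k * 4 by rw [mul_pow, ← pow_mul, mul_comm k, pow_mul]; ring,
      Nat.cast_mul, mul_assoc] at b
    rw [one_mul] at a
    exact (mul_le_mul_right a _).trans ((ENNReal.mul_le_mul_iff_right (by simp) (by simp)).1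
      (b.trans_eq (mul_one _).symm))
  have h2 : 4 * σ d {ω | 4 ^ k * κ d k ≤ En k fun t => X t ω} ≤ 1 := by
    have a := mul_meas_ge_le_lintegral (μ := σ d) (mEn k) (4 ^ k * κ d k)
    refine (ENNReal.mul_le_mul_iff_right (a := 4 ^ k * κ d k) (by simp [κ]) (by finiteness)).1 ?_
    rw [mul_left_comm, mul_one]
    exact (mul_le_mul_right a _).trans (E_En hd k)
  have h3 : 1 ≤ σ d (Γ d k) + (σ d {ω | 1 ≤ ((ch (2 * 2 ^ k) (4 ^ k) ω).2 : ℝ≥0∞)} +
      σ d {ω | 4 ^ k * κ d k ≤ En k fun t => X t ω}) := by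
    refine measure_univ.ge.trans <| (measure_mono fun ω _ => ?_).trans ((measure_union_le _ _).trans
      (add_le_add_right (measure_union_le _ _) _))
    by_contra hc
    simp only [Set.mem_union, not_or, Set.mem_ofPred_eq, not_le, Nat.cast_lt_one] at hc
    exact hc.1 ⟨((ch_inv (by positivity) 0 0 ω _).1 hc.2.1).2, hc.2.2.le⟩
  have h4 : 2 * 1 + 2 ≤ 2 * (2 * σ d (Γ d k)) + 2 :=
    calc (2 * 1 + 2 : ℝ≥0∞) = 4 * 1 := by norm_num
      _ ≤ _ := mul_le_mul_right h3 _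
      _ ≤ 4 * σ d (Γ d k) + (1 + 1) := by rw [mul_add, mul_add]; gcongr
      _ = _ := by ring
  exact (ENNReal.mul_le_mul_iff_right (by simp) (by simp)).1
    ((ENNReal.add_le_add_iff_right (by simp)).1 h4)

def Hit (k : ℕ) (w : ℕ → V d) (y : V d) : Set (ℕ → S d) :=
  Γ d (k + 1) ∩ {ω | ∃ t < 4 ^ (k + 1), ∃ s < 4 ^ k, y + X t ω = w s}

lemma hit (hd : d ≤ 4) {k : ℕ} {w : ℕ → V d} (hw : En k w ≤ 4 ^ k * κ d k) :
    4 ^ k * 4 ^ (k + 1) ≤ 8 * κ d k * ∑' y, σ d (Hit k w y) := by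
  have mH : ∀ y, MeasurableSet (Hit k w y) := fun y => (mΓ _).inter (by
    simp only [Set.ofPred_exists]
    exact .iUnion fun t => (MeasurableSet.const _).inter
      (mX t (t := {x | ∃ s < 4 ^ k, y + x = w s}) .of_discrete))
  set J := range (4 ^ (k + 1)) ×ˢ range (4 ^ k) with hJ
  have e1 : ∀ ω, (Γ d (k + 1)).indicator (fun _ => (8 * κ d k * J.card : ℝ≥0∞)) ω ≤
      ∑' y, (Hit k w y).indicator (fun _ => (16 * κ d k ^ 2 : ℝ≥0∞)) ω +
        ∑ j ∈ J, ∑ j' ∈ J, if X j'.1 ω - X j.1 ω = w j'.2 - w j.2 then 1 else 0 := fun ω => by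
    refine Set.indicator_apply_le' (fun h => ?_) fun _ => zero_le
    have a1 : (J.card : ℝ≥0∞) = ∑' y, ∑ j ∈ J, if y + X j.1 ω = w j.2 then 1 else 0 := by
      rw [Summable.tsum_finsetSum fun _ _ => ENNReal.summable]
      simp [← eq_sub_iff_add_eq]
    have a2 : (∑ j ∈ J, ∑ j' ∈ J, if X j'.1 ω - X j.1 ω = w j'.2 - w j.2 then 1 else 0 : ℝ≥0∞) =
        ∑' y, (∑ j ∈ J, if y + X j.1 ω = w j.2 then 1 else 0) ^ 2 := by
      simp only [pow_two, sum_mul_sum]
      rw [Summable.tsum_finsetSum fun _ _ => ENNReal.summable]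
      refine sum_congr rfl fun j _ => ?_
      rw [Summable.tsum_finsetSum fun _ _ => ENNReal.summable]
      refine sum_congr rfl fun j' _ => ?_
      rw [tsum_eq_single (w j.2 - X j.1 ω) fun y hy => by simp [← eq_sub_iff_add_eq, hy]]
      rw [if_pos (sub_add_cancel _ _), one_mul]
      refine if_congr ⟨fun h => ?_, fun h => ?_⟩ rfl rfl
      · rw [sub_add_eq_add_sub, add_sub_assoc, h]; abel
      · rw [← h]; abel
    rw [a1, a2, ← ENNReal.tsum_mul_left, ← ENNReal.tsum_add]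
    refine ENNReal.tsum_le_tsum fun y => ?_
    by_cases hy : ω ∈ Hit k w y
    · rw [Set.indicator_of_mem hy, sum_boole]
      norm_cast
      nlinarith [sq_nonneg (4 * (κ d k : ℤ) - (#{j ∈ J | y + X j.1 ω = w j.2} : ℕ))]
    · rw [sum_eq_zero fun j hj => if_neg fun hc => hy ⟨h, _, mem_range.1 (mem_product.1 hj).1, _,
        mem_range.1 (mem_product.1 hj).2, hc⟩]
      simp
  have m : ∀ j j' : ℕ × ℕ, Measurable fun ω : ℕ → S d =>
      if X j'.1 ω - X j.1 ω = w j'.2 - w j.2 then (1 : ℝ≥0∞) else 0 := fun j j' =>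
    (measurable_of_countable fun x => if x = w j'.2 - w j.2 then (1 : ℝ≥0∞) else 0).comp
      ((mX _).sub (mX _))
  have e2 := lintegral_mono (μ := σ d) e1
  rw [lintegral_indicator_const (mΓ _),
    lintegral_add_left (Measurable.tsum fun y => measurable_const.indicator (mH y)),
    lintegral_tsum fun y => (measurable_const.indicator (mH y)).aemeasurable,
    lintegral_finsetSum _ fun j _ => Finset.measurable_fun_sum _ fun j' _ => m j j'] at e2
  simp only [lintegral_indicator_const (mH _), lintegral_finsetSum _ fun j' _ => m _ j',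
    fun a b z => inc a b fun x : V d => if x = z then 1 else 0, ENNReal.tsum_mul_left] at e2
  have e3 : ∑ j ∈ J, ∑ j' ∈ J, p (Nat.dist j.1 j'.1) (w j'.2 - w j.2) ≤
      2 * (4 ^ (k + 1) : ℕ) * En k w := by
    simp only [hJ, sum_product_right, En, mul_sum]
    refine sum_le_sum fun s _ => ?_
    rw [sum_comm]
    refine sum_le_sum fun s' _ => ?_
    rw [← mul_sum]
    exact dist_sum _ fun t => p t (w s' - w s)
  have e4 : 2 * κ d k * (4 ^ k * 4 ^ (k + 1)) + 2 * κ d k * (4 ^ k * 4 ^ (k + 1)) ≤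
      2 * κ d k * (8 * κ d k * ∑' y, σ d (Hit k w y)) + 2 * κ d k * (4 ^ k * 4 ^ (k + 1)) :=
    calc _ = (4 * κ d k * J.card * 1 : ℝ≥0∞) := by simp [hJ]; ring
      _ ≤ 4 * κ d k * J.card * (2 * σ d (Γ d (k + 1))) := by gcongr; exact P_Γ hd _
      _ = 8 * κ d k * J.card * σ d (Γ d (k + 1)) := by ring
      _ ≤ _ := e2
      _ ≤ 16 * κ d k ^ 2 * ∑' y, σ d (Hit k w y) + 2 * (4 ^ (k + 1) : ℕ) * (4 ^ k * κ d k) := by
          gcongr
          exact e3.trans (by gcongr)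
      _ = _ := by push_cast; ring
  exact (ENNReal.mul_le_mul_iff_right (by simp [κ]) (by finiteness)).1
    ((ENNReal.add_le_add_iff_right (by finiteness)).1 e4)

end Pool.Agent.H.MP_b9fdbf_pr
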