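import Mathlib
import Pool.Agent.H.MP_b9fdbf_pr.B
import Pool.Agent.H.MP_04d7a1_pr.A

/-! Percolation of random finite shapes placed at independent sites: the subcritical regime. -/

set_option linter.unusedSectionVars false

namespace Pool.Agent.H.MP_b9fdbf_pr

open MeasureTheory ProbabilityTheory Filter Topology Finset Relation Pool.Agent.Lib.helper3
open Pool.Agent.H.MP_04d7a1_pr (mRT mo)
open scoped ENNReal Classical

section
variable {ι Z : Type} [MeasurableSpace Z] (π : Measure Z) [IsProbabilityMeasure π]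

noncomputable abbrev PP (ι : Type) : Measure (ι → Z) := Measure.infinitePi fun _ => π

lemma indep (T : Set ι) {E F : Set (ι → Z)} (mE : MeasurableSet E) (mF : MeasurableSet F)
    (dE : ∀ ω ω', (∀ y ∈ T, ω y = ω' y) → ω ∈ E → ω' ∈ E)
    (dF : ∀ ω ω', (∀ y ∉ T, ω y = ω' y) → ω ∈ F → ω' ∈ F) :
    PP π ι (E ∩ F) = PP π ι E * PP π ι F := by
  have m : ∀ i, Measurable fun z : Z × Z => if i ∈ T then z.1 else z.2 := fun i => by
    split_ifs <;> fun_prop
  have h : MeasurePreserving (fun (w : ι → Z × Z) i => if i ∈ T then (w i).1 else (w i).2)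
      (Measure.infinitePi fun _ => π.prod π) (PP π ι) :=
    ⟨measurable_pi_lambda _ fun i => (m i).comp (measurable_pi_apply i), by
      rw [Measure.infinitePi_map_pi _ m]
      congr 1
      funext i
      split_ifs
      · exact measurePreserving_fst.map_eq
      · exact measurePreserving_snd.map_eq⟩
  rw [← (h.comp (Chain.zip _ _)).measure_preimage (mE.inter mF).nullMeasurableSet,
    ← Measure.prod_prod]
  congr 1
  ext z
  exact and_congr ⟨dE _ _ fun y hy => by simp [hy], dE _ _ fun y hy => by simp [hy]⟩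
    ⟨dF _ _ fun y hy => by simp [hy], dF _ _ fun y hy => by simp [hy]⟩

lemma zero_one {T : Set (ι → Z)} (mT : MeasurableSet T)
    (h : ∀ (F : Finset ι) ω ω', (∀ y ∉ F, ω y = ω' y) → ω ∈ T → ω' ∈ T) (h1 : PP π ι T < 1) :
    PP π ι T = 0 := by
  by_contra h0
  have h2 : (PP π ι T)⁻¹ • (PP π ι).restrict T = PP π ι := Measure.eq_infinitePi _ fun s t ht => by
    have ms := MeasurableSet.pi s.countable_toSet fun i _ => ht i
    rw [Measure.smul_apply, Measure.restrict_apply ms, indep π s ms mT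
      (fun ω ω' e h i hi => e i hi ▸ h i hi) (h s), Measure.infinitePi_pi _ fun i _ => ht i,
      smul_eq_mul, mul_comm, mul_assoc, ENNReal.mul_inv_cancel h0 (measure_ne_top _ _), mul_one]
  have := congrArg (· T) h2
  simp only [Measure.smul_apply, Measure.restrict_apply_self, smul_eq_mul,
    ENNReal.inv_mul_cancel h0 (measure_ne_top _ _)] at this
  exact h1.ne this.symm

lemma ev {E : Set Z} (hE : MeasurableSet E) (y : ι) : PP π ι {ω | ω y ∈ E} = π E :=
  (measurePreserving_eval_infinitePi (fun _ : ι => π) y).measure_preimage hE.nullMeasurableSet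

end

lemma remove {W : Type} {R : W → W → Prop} (hR : ∀ p, {q | R p q}.Finite) {K : Set W}
    (hK : K.Finite) {a : W} (h : {b | ReflTransGen R a b}.Infinite) :
    ∃ a, {b | ReflTransGen (fun p q => R p q ∧ p ∉ K ∧ q ∉ K) a b}.Infinite := by
  by_contra hc
  simp only [not_exists, Set.not_infinite] at hc
  refine h ((hK.union (((hK.biUnion fun p _ => hR p).insert a).biUnion fun s _ => hc s)).subset
    fun b hb => ?_)
  induction hb with
  | refl => exact Or.inr (Set.mem_biUnion (Set.mem_insert _ _) ReflTransGen.refl)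
  | @tail p q _ h2 ih =>
    by_cases hq : q ∈ K
    · exact Or.inl hq
    by_cases hp : p ∈ K
    · exact Or.inr (Set.mem_biUnion (Or.inr (Set.mem_biUnion hp h2)) ReflTransGen.refl)
    obtain ⟨s, h3, h4⟩ := Set.mem_iUnion₂.1 (ih.resolve_left hp)
    exact Or.inr (Set.mem_biUnion h3 (ReflTransGen.tail h4 ⟨h2, hp, hq⟩))

variable {d : ℕ} [NeZero d]

attribute [local irreducible] box

def Adj (p q : V d) : Prop := ∃ s, q = p + st s

lemma Adj.le {p q : V d} (h : Adj p q) : nrm (q - p) ≤ 1 := by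
  obtain ⟨s, rfl⟩ := h
  simpa using nrm_st s

lemma Adj.symm {p q : V d} (h : Adj p q) : Adj q p := by
  obtain ⟨⟨i, b⟩, rfl⟩ := h
  exact ⟨(i, !b), by cases b <;> simp [st, add_assoc, ← Pi.single_add]⟩

lemma exit {R : V d → V d → Prop} (hR : ∀ p q, R p q → nrm (q - p) ≤ 1) (u : V d) {m : ℕ}
    {a b : V d} (h : ReflTransGen R a b) (ha : nrm (a - u) ≤ m) (hb : m ≤ nrm (b - u)) :
    ∃ c, nrm (c - u) = m ∧
      ReflTransGen (fun p q => R p q ∧ nrm (p - u) ≤ m ∧ nrm (q - u) ≤ m) a c := by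
  have : (nrm (b - u) ≤ m ∧
      ReflTransGen (fun p q => R p q ∧ nrm (p - u) ≤ m ∧ nrm (q - u) ≤ m) a b) ∨ ∃ c,
      nrm (c - u) = m ∧ ReflTransGen (fun p q => R p q ∧ nrm (p - u) ≤ m ∧ nrm (q - u) ≤ m) a c := by
    clear hb
    induction h with
    | refl => exact Or.inl ⟨ha, .refl⟩
    | @tail p q _ h2 ih =>
      refine ih.elim (fun ⟨h3, h4⟩ => ?_) Or.inr
      by_cases h5 : nrm (q - u) ≤ m
      · exact Or.inl ⟨h5, h4.tail ⟨h2, h3, h5⟩⟩
      · have := hR p q h2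
        exact Or.inr ⟨p, by have := tri q p u; omega, h4⟩
  exact this.elim (fun h => ⟨b, le_antisymm h.1 hb, h.2⟩) id

lemma net {r : ℕ} (hr : 0 < r) {x a : V d} (h : nrm (a - x) ≤ 20 * r) :
    ∃ i ∈ box 0 20, nrm (a - (x + (r : ℤ) • i)) ≤ r := by
  have : ∀ s : ℤ, s.natAbs ≤ 20 * r → (s / r).natAbs ≤ 20 ∧ (s - r * (s / r)).natAbs ≤ r := by
    intro s hs
    have h0 : (0 : ℤ) < r := by exact_mod_cast hr
    have h1 := Int.emod_nonneg s h0.ne'
    have h2 := Int.emod_lt_of_pos s h0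
    have h3 := Int.emod_add_mul_ediv s r
    have h4 : s / r ≤ 20 := by nlinarith [show s ≤ 20 * r by omega]
    have h5 : -21 < s / r := by nlinarith [show -(20 * r) ≤ s by omega]
    omega
  refine ⟨fun l => (a - x) l / r, mem_box.2 (nrm_le.2 fun l => ?_), nrm_le.2 fun l => ?_⟩
  · simpa using (this _ (nrm_le.1 h l)).1
  · simpa [sub_sub] using (this _ (nrm_le.1 h l)).2

variable {Z : Type} (H : Z → Finset (V d) → Prop)

def cov (ω : V d → Z) (Λ : Set (V d)) (p : V d) : Prop := ∃ y ∈ Λ, ∃ A, H (ω y) A ∧ p - y ∈ A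

def Rl (ω : V d → Z) (Λ : Set (V d)) (p q : V d) : Prop := cov H ω Λ p ∧ cov H ω Λ q ∧ Adj p q

def Perc (Λ : Set (V d)) : Set (V d → Z) := {ω | ∃ a, {b | ReflTransGen (Rl H ω Λ) a b}.Infinite}

def G (u : V d) (r : ℕ) : Set (V d → Z) :=
  {ω | ∃ a b, nrm (a - u) ≤ r ∧ 2 * r ≤ nrm (b - u) ∧ ReflTransGen (Rl H ω (box u (3 * r))) a b}

def Bad (x : V d) (r : ℕ) : Set (V d → Z) :=
  {ω | ∃ y A, H (ω y) A ∧ (∃ a ∈ A, r ≤ nrm a) ∧ ∃ a ∈ A, nrm (y + a - x) ≤ 30 * r}

variable {H}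

lemma loc {ω : V d → Z} {Λ : Set (V d)} {x u a b : V d} {r : ℕ} (hn : ω ∉ Bad H x r)
    (hu : nrm (u - x) ≤ 21 * r) (ha : nrm (a - u) ≤ r) (hb : 2 * r ≤ nrm (b - u))
    (hp : ReflTransGen (Rl H ω Λ) a b) : ω ∈ G H u r := by
  have h : ∀ z, nrm (z - u) ≤ 2 * r → cov H ω Λ z → cov H ω (box u (3 * r)) z := by
    rintro z hz ⟨y, -, A, y2, y3⟩
    refine ⟨y, mem_box.2 ?_, A, y2, y3⟩
    by_contra hc
    have := tri y z u
    have := sy y z
    have := tri z u x
    exact hn ⟨y, A, y2, ⟨_, y3, by omega⟩, _, y3, by rw [add_sub_cancel]; omega⟩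
  obtain ⟨c, h1, h2⟩ := exit (fun _ _ h => h.2.2.le) u hp (by omega) hb
  exact ⟨a, c, ha, h1.ge, mo h2 fun p q ⟨⟨h3, h4, h5⟩, h6, h7⟩ => ⟨h p h6 h3, h q h7 h4, h5⟩⟩

lemma step {r : ℕ} (hr : 0 < r) (x : V d) : G H x (10 * r) ⊆ Bad H x r ∪
    ⋃ i ∈ box 0 20, ⋃ j ∈ box 0 20, {ω | 6 * r < nrm (x + (r : ℤ) • i - (x + (r : ℤ) • j)) ∧
      ω ∈ G H (x + (r : ℤ) • i) r ∩ G H (x + (r : ℤ) • j) r} := by
  rintro ω ⟨a, b, h1, h2, h3⟩
  refine or_iff_not_imp_left.2 fun hn => ?_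
  obtain ⟨c, c1, c2⟩ := exit (fun _ _ h => h.2.2.le) x h3 (m := 20 * r) (by omega) (by omega)
  replace c2 := mo c2 fun _ _ h => h.1
  obtain ⟨i, i1, i2⟩ := net hr (x := x) (a := a) (by omega)
  obtain ⟨j, j1, j2⟩ := net hr c1.le
  refine Set.mem_biUnion i1 (Set.mem_biUnion j1 ?_)
  simp only [Set.mem_ofPred_eq]
  generalize x + (r : ℤ) • i = u at *
  generalize x + (r : ℤ) • j = v at *
  have := tri c a x
  have := tri c u a
  have := tri c v u
  have := tri c v a
  have := tri u a x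
  have := tri v c x
  have := sy a u
  have := sy a v
  have := sy c v
  have := sy u v
  exact ⟨by omega, loc hn (by omega) i2 (by omega) c2, loc (b := a) hn (by omega) j2 (by omega)
    (mo (reflTransGen_swap.2 c2) fun p q h => ⟨h.2.1, h.1, h.2.2.symm⟩)⟩

lemma dR {ω ω' : V d → Z} {Λ Λ' : Set (V d)} (h : ∀ y ∈ Λ, y ∈ Λ' ∧ ω y = ω' y) (p q : V d)
    (h' : Rl H ω Λ p q) : Rl H ω' Λ' p q := by
  have : ∀ z, cov H ω Λ z → cov H ω' Λ' z :=
    fun z ⟨y, h1, h2⟩ => ⟨y, (h y h1).1, (h y h1).2 ▸ h2⟩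
  exact ⟨this _ h'.1, this _ h'.2.1, h'.2.2⟩

variable [MeasurableSpace Z] (π : Measure Z) [IsProbabilityMeasure π]
  (hm : ∀ A, MeasurableSet {z | H z A})
include hm

lemma mR (Λ : Set (V d)) (a b : V d) : MeasurableSet {ω | ReflTransGen (Rl H ω Λ) a b} := by
  have h1 : ∀ z, MeasurableSet {ω : V d → Z | cov H ω Λ z} := fun z => by
    simp only [cov, Set.ofPred_exists]
    refine .iUnion fun y => (MeasurableSet.const _).inter
      (s₂ := {ω : V d → Z | ∃ A, H (ω y) A ∧ z - y ∈ A}) ?_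
    simp only [Set.ofPred_exists]
    exact .iUnion fun A => MeasurableSet.inter (s₁ := (fun ω : V d → Z => ω y) ⁻¹' {z | H z A})
      (measurable_pi_apply y (hm A)) (.const _)
  exact mRT (fun p q => (h1 p).inter ((h1 q).inter (.const _))) a b

lemma mG (u : V d) (r : ℕ) : MeasurableSet (G H u r) := by
  simp only [G, Set.ofPred_exists]
  exact .iUnion fun a => .iUnion fun b => (MeasurableSet.const _).inter
    ((MeasurableSet.const _).inter (mR hm _ a b))

lemma mPerc (Λ : Set (V d)) : MeasurableSet (Perc H Λ) := by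
  have : Perc H Λ = ⋃ a, ⋂ F : Finset (V d), ⋃ b ∉ F, {ω | ReflTransGen (Rl H ω Λ) a b} := by
    ext ω
    simp only [Perc, Set.mem_ofPred_eq, Set.mem_iUnion, Set.mem_iInter, exists_prop]
    refine exists_congr fun a => ⟨fun h F => (h.exists_notMem_finset F).imp fun b hb => hb.symm,
      fun h hf => ?_⟩
    obtain ⟨b, h1, h2⟩ := h hf.toFinset
    exact h1 (hf.mem_toFinset.2 h2)
  rw [this]
  exact .iUnion fun a => .iInter fun F => .iUnion fun b => .iUnion fun _ => mR hm Λ a b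

lemma P_G {ε : ℝ≥0∞} (hε : 4 * 41 ^ (2 * d) * ε ≤ 1)
    (h0 : 7 ^ d * π {z | ∃ A, H z A} ≤ ε) (h1 : ∀ x r, 0 < r → PP π _ (Bad H x r) ≤ ε) (k : ℕ) :
    ∀ x, PP π _ (G H x (10 ^ k)) ≤ 2 * ε := by
  induction k with
  | zero =>
    intro x
    have : G H x (10 ^ 0) ⊆ ⋃ y ∈ box x 3, {ω | ω y ∈ {z | ∃ A, H z A}} := by
      rintro ω ⟨a, b, h1, h2, h3⟩
      obtain rfl | ⟨c, ⟨⟨y, y1, A, y3, -⟩, -⟩, -⟩ := h3.cases_head
      · omega
      · exact Set.mem_biUnion y1 ⟨A, y3⟩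
    refine (measure_mono this).trans ((measure_biUnion_finset_le _ _).trans ?_)
    rw [sum_congr rfl fun y _ => ev π (by
      rw [Set.ofPred_exists]; exact .iUnion hm) y, sum_const, card_box, nsmul_eq_mul, two_mul ε]
    exact le_add_right (by simpa using h0)
  | succ k ih =>
    intro x
    have hr : 0 < 10 ^ k := by positivity
    rw [pow_succ' 10 k]
    generalize 10 ^ k = r at *
    have h5 : ∀ u v, PP π _ {ω | 6 * r < nrm (u - v) ∧ ω ∈ G H u r ∩ G H v r} ≤
        2 * ε * (2 * ε) := fun u v => by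
      by_cases h : 6 * r < nrm (u - v)
      · simp only [h, true_and, Set.ofPred_mem_eq]
        rw [indep π (box u (3 * r)) (mG hm _ _) (mG hm _ _)
          (fun ω ω' e ⟨a, b, h1, h2, h3⟩ => ⟨a, b, h1, h2, mo h3 (dR fun y hy => ⟨hy, e y hy⟩)⟩)
          fun ω ω' e ⟨a, b, h1, h2, h3⟩ => ⟨a, b, h1, h2, mo h3 (dR fun y hy => ⟨hy, e y fun hc => by
            have := mem_box.1 hy
            have := mem_box.1 hc
            have := tri u y v
            have := sy u y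
            omega⟩)⟩]
        exact mul_le_mul' (ih u) (ih v)
      · simp [h]
    refine (measure_mono (step hr x)).trans ((measure_union_le _ _).trans ((add_le_add
      (h1 x r hr) ((measure_biUnion_finset_le _ _).trans (sum_le_sum fun i _ =>
        (measure_biUnion_finset_le _ _).trans (sum_le_sum fun j _ => h5 _ _)))).trans ?_))
    simp only [sum_const, card_box, nsmul_eq_mul]
    calc _ = ε + ε * (4 * 41 ^ (2 * d) * ε) := by push_cast; ring
      _ ≤ ε + ε * 1 := by gcongr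
      _ = _ := by ring

theorem sub (hf : ∀ᵐ z ∂π, {A | H z A}.Finite) {ε : ℝ≥0∞} (hε : 4 * 41 ^ (2 * d) * ε ≤ 1)
    (h0 : 7 ^ d * π {z | ∃ A, H z A} ≤ ε) (h1 : ∀ x r, 0 < r → PP π _ (Bad H x r) ≤ ε) :
    PP π _ (Perc H Set.univ) = 0 := by
  have a1 := P_G π hm hε h0 h1
  have a2 : PP π _ (Perc H Set.univ) ≤ 3 * ε := by
    have : Perc H Set.univ ⊆ ⋃ k, ⋂ l ≥ k, G H 0 (10 ^ l) ∪ Bad H 0 (10 ^ l) := by
      rintro ω ⟨a, ha⟩
      refine Set.mem_iUnion.2 ⟨nrm a, Set.mem_iInter₂.2 fun l hl => or_iff_not_imp_right.2 fun hn => ?_⟩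
      obtain ⟨b, b1, b2⟩ := ha.exists_notMem_finset (box 0 (2 * 10 ^ l))
      refine loc hn (by simp [nrm_zero]) ?_ (not_le.1 (mt mem_box.2 b2)).le b1
      rw [sub_zero]
      exact hl.trans (Nat.lt_pow_self (by norm_num)).le
    refine (measure_mono this).trans ?_
    rw [Monotone.measure_iUnion fun a b hab =>
      Set.biInter_subset_biInter_left fun l hl => le_trans hab hl]
    refine iSup_le fun k => (measure_mono (Set.biInter_subset_of_mem (le_refl k))).trans
      ((measure_union_le _ _).trans ((add_le_add (a1 k 0) (h1 _ _ (by positivity))).trans_eq ?_))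
    ring
  have a3 : 3 * ε < 1 := by
    have : 4 * ε ≤ 1 := le_trans (by
      rw [mul_assoc]; gcongr; exact le_mul_of_one_le_left' (one_le_pow₀ (by norm_num))) hε
    by_contra hc
    have := (mul_le_mul_right (not_lt.1 hc) 4).trans_eq (mul_left_comm _ _ _) |>.trans
      (mul_le_mul_right this 3)
    norm_num at this
  have a4 := zero_one π (T := ⋂ F : Finset (V d), Perc H (F : Set (V d))ᶜ)
    (.iInter fun F => mPerc hm _) (fun F ω ω' e h => Set.mem_iInter.2 fun F' => by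
      obtain ⟨a, ha⟩ := Set.mem_iInter.1 h (F ∪ F')
      exact ⟨a, ha.mono fun b hb => mo hb (dR fun y hy => by
        simp only [coe_union, Set.compl_union, Set.mem_inter_iff] at hy
        exact ⟨hy.2, e y hy.1⟩)⟩)
    (lt_of_le_of_lt ((measure_mono ((Set.iInter_subset _ ∅).trans (by simp))).trans a2) a3)
  refine nonpos_iff_eq_zero.1 (a4 ▸ measure_mono_ae ?_)
  filter_upwards [ae_all_iff.2 fun y => (measurePreserving_eval_infinitePi
    (fun _ : V d => π) y).quasiMeasurePreserving.ae hf] with ω hω ⟨a, ha⟩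
  refine Set.mem_iInter.2 fun F => ?_
  obtain ⟨a, ha⟩ := remove (R := Rl H ω Set.univ)
    (K := ⋃ y ∈ F, ⋃ A ∈ {A | H (ω y) A}, (y + ·) '' A)
    (fun p => (Set.finite_range fun s => p + st s).subset fun q ⟨_, _, s, h⟩ => ⟨s, h.symm⟩)
    (F.finite_toSet.biUnion fun y _ => (hω y).biUnion fun A _ => A.finite_toSet.image _) ha
  have : ∀ p, cov H ω Set.univ p → p ∉ ⋃ y ∈ F, ⋃ A ∈ {A | H (ω y) A}, (y + ·) '' A →
      cov H ω (F : Set (V d))ᶜ p := fun p ⟨y, _, A, h1, h2⟩ hp => ⟨y, fun hy =>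
    hp (Set.mem_biUnion hy (Set.mem_biUnion h1 ⟨_, h2, add_sub_cancel _ _⟩)), A, h1, h2⟩
  exact ⟨a, ha.mono fun b hb => mo hb fun p q h =>
    ⟨this p h.1.1 h.2.1, this q h.1.2.1 h.2.2, h.1.2.2⟩⟩

end Pool.Agent.H.MP_b9fdbf_pr
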