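import Mathlib
import Pool.Agent.H.MP_b9fdbf_pr.C

/-! Worm percolation in dimensions three and four. -/

set_option linter.unusedSectionVars false

namespace Pool.Agent.H.MP_b9fdbf_pr

open MeasureTheory ProbabilityTheory Filter Topology Finset Relation
open Pool.Agent.H.MP_04d7a1_pr (mo)
open scoped ENNReal Classical

variable {d : ℕ} [NeZero d]

attribute [local irreducible] box

noncomputable def ν (d : ℕ) [NeZero d] (m : ℕ → ℝ≥0∞) : Measure (Finset (V d)) :=
  Measure.sum fun n => m n • (σ d).map (tr n)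

lemma ν_apply (m : ℕ → ℝ≥0∞) (T : Set (Finset (V d))) :
    ν d m T = ∑' n, m n * σ d (tr n ⁻¹' T) := by
  rw [ν, Measure.sum_apply _ (s := T) trivial]
  simp only [Measure.smul_apply, Measure.map_apply (mtr _) (s := T) trivial, smul_eq_mul]

lemma ν_le {m : ℕ → ℝ≥0∞} (h : ∑' n, m n = 1) (T : Set (Finset (V d))) : ν d m T ≤ 1 := by
  rw [ν_apply, ← h]
  exact ENNReal.tsum_le_tsum fun n => mul_le_of_le_one_right' prob_le_one

lemma tail (hd : d = 3 ∨ d = 4) {m : ℕ → ℝ≥0∞} {C : ℝ} (hC : 0 ≤ C)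
    (h : ∀ n, m n ≤ ENNReal.ofReal (C / √(n + 1) ^ (d + 2))) {r : ℕ} (hr : 0 < r) :
    ∑' n, m n * (r ^ d * ∫⁻ ω, ((ch r n ω).2 : ℝ≥0∞) ∂σ d) ≤ ENNReal.ofReal (127 * C) := by
  have r0 : (0 : ℝ) < r := by exact_mod_cast hr
  have key : ∀ (n a b : ℕ) (t : ℝ), (r ^ a : ℕ) * ∫⁻ ω, ((ch r n ω).2 : ℝ≥0∞) ∂σ d ≤ b →
      C / √(n + 1) ^ (d + 2) * (r ^ d * (b / r ^ a)) ≤ t →
      m n * (r ^ d * ∫⁻ ω, ((ch r n ω).2 : ℝ≥0∞) ∂σ d) ≤ ENNReal.ofReal t := fun n a b t h1 h2 => by
    refine (mul_le_mul' (h n) (mul_le_mul_right ((ENNReal.le_div_iff_mul_le (by simp [hr.ne'])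
      (by simp)).2 ((mul_comm _ _).trans_le h1)) _)).trans ?_
    rw [← Nat.cast_pow, ← ENNReal.ofReal_natCast, ← ENNReal.ofReal_natCast,
      ← ENNReal.ofReal_natCast, ← ENNReal.ofReal_div_of_pos (by positivity),
      ← ENNReal.ofReal_mul (by positivity), ← ENNReal.ofReal_mul (by positivity)]
    exact ENNReal.ofReal_le_ofReal (by exact_mod_cast h2)
  rw [← ENNReal.summable.sum_add_tsum_nat_add' (k := r ^ 2), show 127 * C = 125 * C + 2 * C by ring,
    ENNReal.ofReal_add (by positivity) (by positivity)]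
  refine add_le_add ((sum_le_card_nsmul _ _ (ENNReal.ofReal (125 * C / r ^ 2)) fun n hn =>
    key n _ _ _ (cnt3 r n) ?_).trans ?_) (ENNReal.tsum_le_of_sum_range_le fun N => ?_)
  · have h1 : (n + 1 : ℝ) ≤ r ^ 2 := by exact_mod_cast mem_range.1 hn
    have h2 : √(n + 1) ≤ r := Real.sqrt_le_iff.2 ⟨r0.le, h1⟩
    have h3 : (n : ℝ) ≤ √(n + 1) ^ 2 := by rw [Real.sq_sqrt (by positivity)]; linarith
    have h4 : 0 < √(n + 1) := by positivity
    generalize √(n + 1) = s at *
    push_cast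
    calc _ ≤ C / s ^ (d + 2) * (r ^ d * (125 * (s ^ 2) ^ 3 / r ^ 6)) := by gcongr
      _ ≤ _ := by
        rcases hd with rfl | rfl
        · calc _ = 125 * C / r ^ 2 * (s / r) := by field_simp
            _ ≤ 125 * C / r ^ 2 * 1 := by gcongr; exact (div_le_one r0).2 h2
            _ = _ := mul_one _
        · exact le_of_eq (by field_simp)
  · rw [card_range, nsmul_eq_mul, ← ENNReal.ofReal_natCast, ← ENNReal.ofReal_mul (by positivity)]
    exact ENNReal.ofReal_le_ofReal (le_of_eq (by push_cast; field_simp))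
  · set g : ℕ → ℝ := fun i => 2 * C * r / √(i + r ^ 2 : ℕ) with hg
    have a : ∀ i, C * r / √((i + r ^ 2 : ℕ) + 1) ^ 3 ≤ g i - g (i + 1) := fun i => by
      simp only [hg, add_right_comm i 1, Nat.cast_succ]
      have h1 : (0 : ℝ) < (i + r ^ 2 : ℕ) := by positivity
      generalize ((i + r ^ 2 : ℕ) : ℝ) = x at *
      have h2 := Real.sq_sqrt h1.le
      have h3 := Real.sq_sqrt (show 0 ≤ x + 1 by positivity)
      have h4 : √x ≤ √(x + 1) := Real.sqrt_le_sqrt (by linarith)
      have h5 := Real.sqrt_pos.2 h1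
      generalize √x = a at *
      generalize √(x + 1) = b at *
      have h6 : 0 < b := h5.trans_le h4
      rw [div_sub_div _ _ h5.ne' h6.ne', div_le_div_iff₀ (by positivity) (by positivity)]
      have h7 : a * b ≤ 2 * (b - a) * b ^ 3 := by
        have : (b - a) * (b + a) = 1 := by nlinarith
        have h8 : 1 ≤ 2 * (b - a) * b := by nlinarith
        nlinarith [mul_le_mul h8 (mul_le_mul_of_nonneg_right h4 h6.le) (by positivity)
          (by positivity)]
      nlinarith [mul_le_mul_of_nonneg_left h7 (mul_nonneg hC r0.le)]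
    refine (sum_le_sum fun i _ => key _ _ _ _ (cnt1 r _) (le_trans ?_ (a i))).trans ?_
    · have h2 : (r : ℝ) ≤ √((i + r ^ 2 : ℕ) + 1) := Real.le_sqrt_of_sq_le (by
        push_cast; linarith [i.cast_nonneg (α := ℝ)])
      have h3 : ((i + r ^ 2 : ℕ) : ℝ) ≤ √((i + r ^ 2 : ℕ) + 1) ^ 2 := by
        rw [Real.sq_sqrt (by positivity)]; linarith
      have h4 := r0.trans_le h2
      generalize √((i + r ^ 2 : ℕ) + 1) = s at *
      calc _ ≤ C / s ^ (d + 2) * (r ^ d * (s ^ 2 / r ^ 2)) := by gcongr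
        _ ≤ _ := by
          rcases hd with rfl | rfl
          · exact le_of_eq (by field_simp)
          · calc _ = C * r / s ^ 3 * (r / s) := by field_simp
              _ ≤ C * r / s ^ 3 * 1 := by gcongr; exact (div_le_one h4).2 h2
              _ = _ := mul_one _
    · rw [← ENNReal.ofReal_sum_of_nonneg fun i _ => le_trans (by positivity) (a i), sum_range_sub']
      refine ENNReal.ofReal_le_ofReal (sub_le_iff_le_add.2 (le_add_of_le_of_nonneg ?_ ?_))
      · simp [hg, r0.le, r0.ne']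
      · positivity

variable {Z : Type} [MeasurableSpace Z] (π : Measure Z) [IsProbabilityMeasure π]
  {H : Z → Finset (V d) → Prop} (hH : ∀ A, MeasurableSet {z | H z A}) {m : ℕ → ℝ≥0∞}
  (hm : ∑' n, m n = 1) {v : ℝ≥0∞} (up : ∀ A, π {z | H z A} ≤ v * ν d m {A})
include hH hm up

lemma up_set (T : Set (Finset (V d))) : ∑' A, T.indicator (fun A => π {z | H z A}) A ≤ v * ν d m T := by
  rw [← Measure.tsum_indicator_apply_singleton _ T trivial, ← ENNReal.tsum_mul_left]
  refine ENNReal.tsum_le_tsum fun A => ?_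
  by_cases h : A ∈ T <;> simp [h, up]

lemma up_ex (T : Set (Finset (V d))) : π {z | ∃ A ∈ T, H z A} ≤ v * ν d m T := by
  refine le_trans ?_ (up_set π hH hm up T)
  rw [Set.ofPred_exists]
  refine (measure_iUnion_le _).trans (ENNReal.tsum_le_tsum fun A => ?_)
  by_cases h : A ∈ T <;> simp [h]

theorem subcritical (hd : d = 3 ∨ d = 4) {C : ℝ} (hC : 0 ≤ C)
    (h : ∀ n, m n ≤ ENNReal.ofReal (C / √(n + 1) ^ (d + 2)))
    (hv : 4 * 41 ^ (2 * d) * (v * (7 ^ d + 2 * 63 ^ d * ENNReal.ofReal (127 * C))) ≤ 1) :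
    PP π _ (Perc H Set.univ) = 0 := by
  have h1 := (up_set π hH hm up Set.univ).trans (mul_le_of_le_one_right' (ν_le hm _))
  refine sub π hH (ae_finite_setOfPred_mem (s := fun A => {z | H z A})
    (ne_top_of_le_ne_top ?_ (by simpa using h1))) hv ?_ fun x r hr => ?_
  · rintro rfl
    simp at hv
  · rw [mul_add, mul_comm v]
    refine le_add_right (mul_le_mul_right ?_ _)
    simpa using (up_ex π hH hm up Set.univ).trans (mul_le_of_le_one_right' (ν_le hm _))
  · have : Bad H x r = ⋃ y, {ω | ω y ∈ {z | ∃ A ∈ {A : Finset (V d) | (∃ a ∈ A, r ≤ nrm a) ∧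
        ∃ a ∈ A, nrm (y + a - x) ≤ 30 * r}, H z A}} := by
      ext ω
      simp only [Bad, Set.mem_ofPred_eq, Set.mem_iUnion, and_comm (a := H _ _)]
    rw [this]
    refine (measure_iUnion_le _).trans ((ENNReal.tsum_le_tsum fun y => (ev π (by
      rw [Set.ofPred_exists]; exact .iUnion fun A => (MeasurableSet.const _).inter (hH A))
        y).trans_le (up_ex π hH hm up _)).trans ?_)
    simp only [ENNReal.tsum_mul_left, ν_apply]
    rw [ENNReal.tsum_comm]
    refine mul_le_mul_right (le_add_left (le_trans ?_ (mul_le_mul_right (tail hd hC h hr) _))) _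
    rw [← ENNReal.tsum_mul_left]
    refine ENNReal.tsum_le_tsum fun n => ?_
    rw [ENNReal.tsum_mul_left]
    exact (mul_le_mul_right (sausage hr n x) _).trans_eq (by push_cast; ring)

end Pool.Agent.H.MP_b9fdbf_pr
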