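import Mathlib
import Pool.Agent.H.MP_b9fdbf_pr.D

/-! Worm percolation: a chain of intersecting worms of growing scale. -/

set_option linter.unusedSectionVars false

namespace Pool.Agent.H.MP_b9fdbf_pr

open MeasureTheory ProbabilityTheory Filter Topology Finset Relation
open Pool.Agent.H.MP_04d7a1_pr (mo)
open scoped ENNReal Classical

variable {d : ℕ} [NeZero d]

attribute [local irreducible] box

def Conn (A : Finset (V d)) : Prop :=
  ∀ a ∈ A, ReflTransGen (fun p q => p ∈ A ∧ q ∈ A ∧ Adj p q) 0 a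

lemma mem_tr {n t : ℕ} (h : t ≤ n) (ω : ℕ → S d) : X t ω ∈ tr n ω :=
  mem_image_of_mem (fun t => X t ω) (mem_range_succ_iff.2 h)

lemma tr_conn (n : ℕ) (ω : ℕ → S d) : Conn (tr n ω) := by
  intro a ha
  obtain ⟨t, ht, rfl⟩ := mem_image.1 ha
  rw [mem_range_succ_iff] at ht
  clear ha
  induction t with
  | zero => exact .refl
  | succ t ih => exact (ih (by omega)).tail ⟨mem_tr (by omega) _, mem_tr ht _, _, X_succ _ _⟩

def Good (e : V d → ℕ) (k : ℕ) (y : V d) (A : Finset (V d)) : Prop :=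
  nrm y ≤ 8 * 2 ^ k ∧ k ≤ e y ∧ A ⊆ box 0 (2 * 4 ^ k) ∧ Conn A ∧ ∃ w : ℕ → V d,
    (∀ s < 4 ^ k, w s - y ∈ A ∧ nrm (w s) ≤ 8 * 2 ^ k) ∧ En k w ≤ 4 ^ k * κ d k

lemma grow (hd : d = 3 ∨ d = 4) {m : ℕ → ℝ≥0∞} {c b : ℝ} (hc : 0 < c) (hb : b < 1 + d / 2)
    (h : ∀ n : ℕ, ENNReal.ofReal (c * (n + 1 : ℝ) ^ (-b)) ≤ m n) (M : ℕ) : ∀ᶠ k in atTop,
    8 * κ d k * (M * (k + 1) : ℕ) ≤
      4 ^ k * 4 ^ (k + 1) * ∑ n ∈ Ico (4 ^ (k + 1)) (2 * 4 ^ (k + 1)), m n := by
  wlog hb0 : 0 ≤ b generalizing b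
  · refine this (b := 0) (by positivity) (fun n => le_trans (ENNReal.ofReal_le_ofReal ?_) (h n)) le_rfl
    gcongr
    · linarith [n.cast_nonneg (α := ℝ)]
    · linarith
  have h1 : (4 : ℝ) ^ b * 2 ^ (4 - d) < 64 := by
    refine (mul_lt_mul_of_pos_right (Real.rpow_lt_rpow_of_exponent_lt (by norm_num) hb)
      (by positivity)).trans_eq ?_
    rw [show (4 : ℝ) = 2 ^ (2 : ℝ) by norm_num, ← Real.rpow_mul (by norm_num)]
    rcases hd with rfl | rfl <;> norm_num
  have h2 : (0 : ℝ) < 4 ^ b := by positivity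
  set θ : ℝ := 64 / (4 ^ b * 2 ^ (4 - d)) with hθ
  have h3 : 1 < θ := (one_lt_div (by positivity)).2 h1
  set K : ℝ := 8 * 48 * 256 * (2 ^ (4 - d)) ^ 2 * (M + 1) with hK
  filter_upwards [((tendsto_pow_const_div_const_pow_of_one_lt 3 h3).comp
    (tendsto_add_atTop_nat 1)).eventually_le_const
      (show 0 < c * 16 / (2 ^ b * 4 ^ b) / (K * θ) by positivity)] with k hk
  refine le_trans ?_ (mul_le_mul_right (card_nsmul_le_sum _ _
    (ENNReal.ofReal (c / (2 ^ b * (4 ^ b) ^ (k + 1)))) fun n hn =>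
      le_trans (ENNReal.ofReal_le_ofReal ?_) (h n)) _)
  · rw [Nat.card_Ico, show 2 * 4 ^ (k + 1) - 4 ^ (k + 1) = 4 ^ (k + 1) by omega, nsmul_eq_mul]
    norm_cast
    rw [← ENNReal.ofReal_natCast, ← ENNReal.ofReal_natCast, ← ENNReal.ofReal_natCast,
      ← ENNReal.ofReal_mul (by positivity), ← ENNReal.ofReal_mul (by positivity)]
    refine ENNReal.ofReal_le_ofReal ?_
    simp only [Function.comp, κ] at hk ⊢
    rw [div_le_iff₀ (by positivity)] at hk
    push_cast at hk ⊢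
    calc _ = 8 * 48 * 256 * (2 ^ (4 - d)) ^ 2 * M * (2 ^ (4 - d)) ^ k * (k + 1 : ℝ) ^ 3 := by ring
      _ ≤ K * (2 ^ (4 - d)) ^ k * (c * 16 / (2 ^ b * 4 ^ b) / (K * θ) * θ ^ (k + 1)) := by
          gcongr
          rw [hK]
          gcongr
          linarith
      _ = _ := by
          have : 0 < K := by positivity
          rw [pow_succ θ, mul_comm (θ ^ k), hθ, div_pow, mul_pow,
            show (64 : ℝ) = 4 * 4 * 4 by norm_num, mul_pow, mul_pow]
          field_simp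
          ring
  · rw [Real.rpow_neg (by positivity), ← div_eq_mul_inv, ← Real.rpow_natCast, ← Real.rpow_mul
      (by norm_num), mul_comm b, Real.rpow_mul (by norm_num), Real.rpow_natCast,
      ← Real.mul_rpow (by norm_num) (by positivity)]
    gcongr
    exact_mod_cast (mem_Ico.1 hn).2

variable {Z : Type} [MeasurableSpace Z] (π : Measure Z) [IsProbabilityMeasure π]
  {H : Z → Finset (V d) → Prop} (hH : ∀ A, MeasurableSet {z | H z A}) {m : ℕ → ℝ≥0∞}
  (hm : ∑' n, m n = 1) {c : ℝ} (hc : 0 < c) (low : ∀ T : Finset (Finset (V d)),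
    π {z | ∀ A ∈ T, ¬ H z A} ≤ ENNReal.ofReal (Real.exp (-(c * (ν d m T).toReal))))
include hH hm hc low

lemma nohit (hd : d ≤ 4) {e : V d → ℕ} (he : e.Injective) {k M : ℕ}
    (hk : 8 * κ d k * ((M + 2) * (k + 1) : ℕ) ≤
      4 ^ k * 4 ^ (k + 1) * ∑ n ∈ Ico (4 ^ (k + 1)) (2 * 4 ^ (k + 1)), m n)
    {w : ℕ → V d} (h1 : ∀ s < 4 ^ k, nrm (w s) ≤ 8 * 2 ^ k) (h2 : En k w ≤ 4 ^ k * κ d k)
    (y : V d) : PP π _ {ω | ∀ y' ≠ y, ∀ A, Good e (k + 1) y' A → (∃ s < 4 ^ k, w s - y' ∈ A) →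
      ¬ H (ω y') A} ≤ ENNReal.ofReal (Real.exp (-(c * M))) ^ (k + 1) := by
  set T : V d → Finset (Finset (V d)) := fun y' => (box 0 (2 * 4 ^ (k + 1))).powerset.filter
    fun A => Good e (k + 1) y' A ∧ ∃ s < 4 ^ k, w s - y' ∈ A with hT
  set Λ := (box (0 : V d) (8 * 2 ^ (k + 1))).erase y with hΛ
  set Ex := insert y ((range (k + 1)).preimage e he.injOn) with hE
  set μ := ∑ n ∈ Ico (4 ^ (k + 1)) (2 * 4 ^ (k + 1)), m n with hμ
  have a1 : ∀ y', μ * σ d (Hit k w y') ≤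
      (if y' ∈ Λ then ν d m (T y') else 0) + if y' ∈ Ex then 1 else 0 := fun y' => by
    by_cases h : y' ∈ Ex
    · rw [if_pos h]
      exact le_add_left (mul_le_one' ((ENNReal.sum_le_tsum _).trans hm.le) prob_le_one)
    simp only [hE, mem_insert, mem_preimage, mem_range, not_or, not_lt] at h
    refine le_add_right ?_
    have b : ∀ ω ∈ Hit k w y', nrm y' ≤ 12 * 2 ^ k := by
      rintro ω ⟨h3, t, h4, s, h5, h6⟩
      have := h3.1 t h4.le
      have := h1 s h5
      have := tri y' (w s) 0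
      rw [← h6, sub_add_cancel_left, nrm_neg, h6, sub_zero, sub_zero] at this
      omega
    by_cases h0 : y' ∈ Λ
    · rw [if_pos h0, ν_apply, hμ, sum_mul]
      refine (sum_le_sum fun n hn => mul_le_mul_right (measure_mono fun ω hω => ?_) _).trans
        (ENNReal.sum_le_tsum _)
      have b1 := b ω hω
      obtain ⟨h3, t, h4, s, h5, h6⟩ := hω
      rw [mem_Ico] at hn
      have b2 : tr n ω ⊆ box 0 (2 * 4 ^ (k + 1)) := fun a ha => by
        obtain ⟨t, ht, rfl⟩ := mem_image.1 ha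
        have := nrm_X t ω
        rw [mem_range] at ht
        rw [mem_box, sub_zero]
        omega
      refine mem_filter.2 ⟨mem_powerset.2 b2, ⟨by omega, h.2, b2, tr_conn n ω, fun t => y' + X t ω,
        fun s hs => ⟨by simpa using mem_tr (by omega) ω, ?_⟩, by simpa [En] using h3.2⟩, s, h5,
        by simpa [← h6] using mem_tr (by omega) ω⟩
      have := nrm_add y' (X s ω)
      have := h3.1 s hs.le
      dsimp only
      omega
    · rw [Set.eq_empty_of_forall_notMem (s := Hit k w y') fun ω hω => h0 (mem_erase.2 ⟨h.1, mem_box.2 (by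
        have := b ω hω
        rw [sub_zero]; omega)⟩), measure_empty, mul_zero]
      exact zero_le
  have a2 : ((M * (k + 1) : ℕ) : ℝ≥0∞) ≤ ∑ y' ∈ Λ, ν d m (T y') := by
    have b1 := ENNReal.tsum_le_tsum a1
    rw [ENNReal.tsum_mul_left, ENNReal.tsum_add, tsum_eq_sum (s := Λ) fun _ h => if_neg h,
      tsum_eq_sum (s := Ex) fun _ h => if_neg h, sum_congr rfl fun _ h => if_pos h,
      sum_congr rfl (s₂ := Ex) fun _ h => if_pos h, sum_const, nsmul_one] at b1
    have b2 : Ex.card ≤ 2 * (k + 1) := (card_insert_le _ _).trans (by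
      have := card_le_card_of_injOn (s := (range (k + 1)).preimage e he.injOn) (t := range (k + 1))
        e (fun x hx => by simpa using hx) he.injOn
      rw [card_range] at this
      omega)
    have b3 := hk.trans ((mul_le_mul_left (hit hd h2) _).trans_eq (mul_assoc _ _ _))
    rw [ENNReal.mul_le_mul_iff_right (by simp [κ]) (by finiteness), mul_comm _ μ, add_mul,
      Nat.cast_add] at b3
    exact (ENNReal.add_le_add_iff_right (ENNReal.natCast_ne_top _)).1
      (b3.trans (b1.trans (by gcongr)))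
  have f : ∀ y', ν d m (T y') ≠ ⊤ := fun y' => ne_top_of_le_ne_top ENNReal.one_ne_top (ν_le hm _)
  calc _ ≤ PP π _ ((Λ : Set (V d)).pi fun y' => {z | ∀ A ∈ T y', ¬ H z A}) :=
        measure_mono fun ω hω y' hy A hA => by
          exact hω y' (mem_erase.1 hy).1 A (mem_filter.1 hA).2.1 (mem_filter.1 hA).2.2
    _ ≤ ∏ y' ∈ Λ, ENNReal.ofReal (Real.exp (-(c * (ν d m (T y')).toReal))) := by
        rw [Measure.infinitePi_pi _ fun y' _ => by
          simp only [Set.ofPred_forall]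
          exact .iInter fun A => .iInter fun _ => (hH A).compl]
        exact prod_le_prod' fun y' _ => low _
    _ ≤ _ := by
        rw [← ENNReal.ofReal_prod_of_nonneg fun _ _ => (Real.exp_pos _).le, ← Real.exp_sum,
          ← ENNReal.ofReal_pow (Real.exp_pos _).le, ← Real.exp_nat_mul, sum_neg_distrib, ← mul_sum,
          ← ENNReal.toReal_sum fun y' _ => f y']
        have := ENNReal.toReal_mono (ENNReal.sum_ne_top.2 fun y' _ => f y') a2
        rw [ENNReal.toReal_natCast] at this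
        push_cast at this ⊢
        gcongr
        nlinarith

theorem supercritical (hd : d = 3 ∨ d = 4) {v : ℝ≥0∞} (hv : v ≠ ⊤)
    (up : ∀ A, π {z | H z A} ≤ v * ν d m {A}) {c' b : ℝ} (hc' : 0 < c') (hb : b < 1 + d / 2)
    (h : ∀ n : ℕ, ENNReal.ofReal (c' * (n + 1 : ℝ) ^ (-b)) ≤ m n) :
    ∀ᵐ ω ∂PP π _, ω ∈ Perc H Set.univ := by
  have hd' : d ≤ 4 := by omega
  obtain ⟨e, he⟩ := Countable.exists_injective_nat (V d)
  obtain ⟨M, hM⟩ := exists_nat_ge (5 / c)
  obtain ⟨k₀, hk⟩ := eventually_atTop.1 (grow hd hc' hb h (M + 2))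
  have η : ENNReal.ofReal (Real.exp (-(c * M))) ≤ 32⁻¹ := by
    rw [div_le_iff₀ hc] at hM
    have h2 := pow_le_pow_left₀ (by norm_num) (Real.add_one_le_exp 1) 5
    rw [← Real.exp_nat_mul] at h2
    rw [← ENNReal.ofReal_ofNat, ← ENNReal.ofReal_inv_of_pos (by norm_num), Real.exp_neg]
    gcongr
    exact le_trans (by norm_num) (h2.trans (Real.exp_le_exp.2 (by push_cast; linarith)))
  have nh := fun k (hk' : k₀ ≤ k) w h1 h2 y => (nohit π hH hm hc low hd' he (hk k hk') (w := w)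
    h1 h2 y).trans (pow_le_pow_left' η _)
  set N : ℕ → V d → Finset (V d) → Set (V d → Z) := fun k y A => {ω | ∀ y' ≠ y, ∀ A',
    Good e (k + 1) y' A' → (∃ a ∈ A, y + a - y' ∈ A') → ¬ H (ω y') A'} with hN
  set F : ℕ → Set (V d → Z) := fun k => {ω | ∀ y A, Good e (k + 1) y A → ¬ H (ω y) A} ∪
    ⋃ y ∈ box 0 (8 * 2 ^ k), ⋃ A, {ω | Good e k y A ∧ ω ∈ {ω | ω y ∈ {z | H z A}} ∩ N k y A}
    with hF
  have a1 : ∀ k, PP π _ (F (k + k₀)) ≤ (1 + 17 ^ 4 * v) * 2⁻¹ ^ k := fun k => by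
    have b0 : (2⁻¹ : ℝ≥0∞) ^ (k + k₀) ≤ 2⁻¹ ^ k := pow_le_pow_of_le_one zero_le (by simp) le_self_add
    refine le_trans ?_ (mul_le_mul_right b0 _)
    have hk' : k₀ ≤ k + k₀ := le_add_self
    generalize k + k₀ = k at *
    obtain ⟨ω₀, h0⟩ : (Γ d k).Nonempty := nonempty_of_measure_ne_zero (μ := σ d) fun h => by
      simpa [h] using P_Γ (d := d) hd' k
    have b1 : PP π _ {ω | ∀ y A, Good e (k + 1) y A → ¬ H (ω y) A} ≤ 32⁻¹ ^ (k + 1) :=
      le_trans (measure_mono fun ω hω => by exact fun y _ A hA _ => hω y A hA)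
        (nh k hk' _ (fun s hs => by have := h0.1 s hs.le; omega) h0.2 0)
    have b2 : ∀ y A, PP π _ {ω | Good e k y A ∧ ω ∈ {ω | ω y ∈ {z | H z A}} ∩ N k y A} ≤
        π {z | H z A} * 32⁻¹ ^ (k + 1) := fun y A => by
      by_cases hg : Good e k y A
      swap
      · simp [hg]
      simp only [hg, true_and, Set.ofPred_mem_eq]
      rw [indep π {y} (E := {ω | ω y ∈ {z | H z A}}) (F := N k y A) (measurable_pi_apply y (hH A)) (by
          simp only [hN, Set.ofPred_forall]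
          exact .iInter fun y' => .iInter fun _ => .iInter fun A' => .iInter fun _ =>
            .iInter fun _ => MeasurableSet.compl (s := (fun ω : V d → Z => ω y') ⁻¹' {z | H z A'})
              (measurable_pi_apply y' (hH A')))
        (fun ω ω' e h => by rwa [Set.mem_ofPred_eq, ← e y rfl])
        (fun ω ω' e h y' hy => e y' hy ▸ h y' hy), ev π (hH A)]
      obtain ⟨w, g1, g2⟩ := hg.2.2.2.2
      refine mul_le_mul_right (le_trans (measure_mono fun ω hω y' hy A' hA ⟨s, s1, s2⟩ =>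
        hω y' hy A' hA ⟨_, (g1 s s1).1, by rwa [add_sub_cancel]⟩)
          (nh k hk' w (fun s hs => (g1 s hs).2) g2 y)) _
    have b3 := (up_set π hH hm up Set.univ).trans (mul_le_of_le_one_right' (ν_le hm _))
    simp only [Set.indicator_univ] at b3
    refine (measure_union_le _ _).trans ((add_le_add b1 ((measure_biUnion_finset_le _ _).trans
      (sum_le_card_nsmul _ _ _ fun y _ => (measure_iUnion_le _).trans
        ((ENNReal.tsum_le_tsum (b2 y)).trans (ENNReal.tsum_mul_right.trans_le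
          (mul_le_mul_left b3 _)))))).trans ?_)
    have b4 : (16 * 32⁻¹ : ℝ≥0∞) = 2⁻¹ := by
      rw [show (32 : ℝ≥0∞) = 16 * 2 by norm_num, ENNReal.mul_inv (by simp) (by simp), ← mul_assoc,
        ENNReal.mul_inv_cancel (by simp) (by simp), one_mul]
    have b5 : (32⁻¹ : ℝ≥0∞) ^ (k + 1) ≤ 32⁻¹ ^ k := pow_le_pow_of_le_one zero_le (by simp) k.le_succ
    have b6 : (box (0 : V d) (8 * 2 ^ k)).card ≤ 17 ^ 4 * 16 ^ k := by
      have : 0 < 2 ^ k := by positivity
      rw [card_box, show 16 = 2 ^ 4 from rfl, ← pow_mul, mul_comm 4, pow_mul, ← mul_pow]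
      exact (Nat.pow_le_pow_left (by omega) d).trans (Nat.pow_le_pow_right (by omega) hd')
    rw [nsmul_eq_mul, ← b4]
    calc _ ≤ (16 * 32⁻¹) ^ k + (17 ^ 4 * 16 ^ k : ℕ) * (v * 32⁻¹ ^ k) := by
          gcongr ?_ + ?_ * (v * ?_)
          · exact b5.trans (pow_le_pow_left' (le_mul_of_one_le_left' (b := 16) (by norm_num)) _)
          · exact_mod_cast b6
      _ = _ := by push_cast; ring
  have a2 : ∑' k, PP π _ (F (k + k₀)) ≠ ⊤ := ne_top_of_le_ne_top (by
    rw [ENNReal.tsum_mul_left, ENNReal.tsum_geometric_two]; finiteness) (ENNReal.tsum_le_tsum a1)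
  filter_upwards [ae_eventually_notMem a2] with ω hω
  obtain ⟨k₁, hω⟩ := eventually_atTop.1 hω
  simp only [hF, Set.mem_union, not_or, Set.mem_iUnion, not_exists] at hω
  have c1 : ∀ y A, H (ω y) A → Conn A → ∀ a ∈ A, ReflTransGen (Rl H ω Set.univ) y (y + a) :=
    fun y A h1 h2 a ha => by
      simpa [Function.onFun] using ReflTransGen.lift (p := Rl H ω Set.univ) (y + ·) (fun p q ⟨a1, a2, s, a3⟩ =>
        ⟨⟨y, trivial, A, h1, by simpa⟩, ⟨y, trivial, A, h1, by simpa⟩, s, by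
          rw [a3, add_assoc]⟩) _ _ (h2 a ha)
  obtain ⟨y₀, A₀, g0, g0'⟩ : ∃ y A, Good e (k₁ + k₀ + 1) y A ∧ H (ω y) A := by
    simpa using (hω k₁ le_rfl).1
  have c2 : ∀ k, k₁ + 1 ≤ k → ∃ y A, Good e (k + k₀) y A ∧ H (ω y) A ∧
      ReflTransGen (Rl H ω Set.univ) y₀ y := fun k hk => by
    induction k, hk using Nat.le_induction with
    | base => exact ⟨y₀, A₀, by rwa [add_right_comm], g0', .refl⟩
    | succ k hk ih =>
      obtain ⟨y, A, g1, g2, g3⟩ := ih
      have := (hω k (by omega)).2 y (mem_box.2 (by simpa using g1.1)) A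
      simp only [hN, Set.mem_ofPred_eq, Set.mem_inter_iff, g1, g2, true_and, not_forall,
        not_not] at this
      obtain ⟨y', -, A', g4, ⟨a, g5, g6⟩, g7⟩ := this
      refine ⟨y', A', by rwa [add_right_comm], g7, (g3.trans (c1 y A g2 g1.2.2.2.1 a g5)).trans ?_⟩
      have := c1 y' A' g7 g4.2.2.2.1 _ g6
      rw [add_sub_cancel] at this
      exact mo (reflTransGen_swap.2 this) fun p q h => ⟨h.2.1, h.1, h.2.2.symm⟩
  refine ⟨y₀, Set.Infinite.of_image e (Set.infinite_of_forall_exists_gt fun n => ?_)⟩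
  obtain ⟨y, A, g1, -, g3⟩ := c2 (k₁ + 1 + n) le_self_add
  exact ⟨_, ⟨y, g3, rfl⟩, by have := g1.2.1; omega⟩

end Pool.Agent.H.MP_b9fdbf_pr
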