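import Mathlib
import Pool.Agent.H.MP_b9fdbf_pr.E
import Pool.Agent.Lib.helper3.Zd

/-! The dichotomy for power law lengths. -/

set_option linter.unusedSectionVars false

namespace Pool.Agent.H.MP_b9fdbf_pr

open MeasureTheory ProbabilityTheory Filter Topology Finset Relation
open scoped ENNReal NNReal Classical

variable {d : ℕ} [NeZero d]

lemma adj_iff {a b : V d} : ∑ j, |a j - b j| = 1 ↔ Adj a b := by
  refine (Lib.helper3.Zd.adj_iff (x := a) (y := b)).trans ⟨?_, ?_⟩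
  · rintro ⟨i, s, rfl | rfl, h⟩
    · exact ⟨(i, true), h⟩
    · exact ⟨(i, false), h⟩
  · rintro ⟨⟨i, _ | _⟩, h⟩
    · exact ⟨i, _, Or.inr rfl, h⟩
    · exact ⟨i, _, Or.inl rfl, h⟩

lemma ray {W : Type} {R : W → W → Prop} (hR : ∀ p, {q | R p q}.Finite) {a : W}
    (h : {b | ReflTransGen R a b}.Infinite) :
    ∃ p : ℕ → W, p.Injective ∧ ∀ n, R (p n) (p (n + 1)) := by
  have st : ∀ z : {z : Set W × W // z.2 ∉ z.1 ∧
      {b | ReflTransGen (fun p q => R p q ∧ q ∉ z.1) z.2 b}.Infinite}, ∃ q, R z.1.2 q ∧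
      q ∉ insert z.1.2 z.1.1 ∧
      {b | ReflTransGen (fun p q => R p q ∧ q ∉ insert z.1.2 z.1.1) q b}.Infinite := by
    rintro ⟨⟨F, a⟩, h1, h2⟩
    by_contra hc
    simp only [not_exists, not_and, Set.not_infinite] at hc
    refine h2 (((((hR a).subset fun q (hq : R a q ∧ q ∉ insert a F) => hq.1).biUnion
      fun q hq => hc q hq.1 hq.2).insert a).subset fun b hb => ?_)
    induction hb with
    | refl => exact Or.inl rfl
    | @tail p q _ h3 ih =>
      by_cases hq : q = a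
      · exact Or.inl hq
      have h4 : q ∉ insert a F := fun h => h.elim hq h3.2
      rcases ih with rfl | ih
      · exact Or.inr (Set.mem_biUnion (x := q) ⟨h3.1, h4⟩ ReflTransGen.refl)
      · obtain ⟨s, h5, h6⟩ := Set.mem_iUnion₂.1 ih
        exact Or.inr (Set.mem_biUnion h5 (ReflTransGen.tail h6 ⟨h3.1, h4⟩))
  choose f h1 h2 using st
  let z : ℕ → {z : Set W × W // z.2 ∉ z.1 ∧
      {b | ReflTransGen (fun p q => R p q ∧ q ∉ z.1) z.2 b}.Infinite} := fun n =>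
    (fun z => ⟨(insert z.1.2 z.1.1, f z), h2 z⟩)^[n] ⟨(∅, a), by simpa using h⟩
  have e : ∀ n, (z (n + 1)).1 = (insert (z n).1.2 (z n).1.1, f (z n)) := fun n =>
    congrArg Subtype.val (Function.iterate_succ_apply' _ _ _)
  have mo : Monotone fun n => (z n).1.1 := monotone_nat_of_le_succ fun n => by
    rw [e]; exact Set.subset_insert _ _
  refine ⟨fun n => (z n).1.2, Function.Injective.of_lt_imp_ne fun i j hij hc =>
    (z j).2.1 (mo (Nat.succ_le_of_lt hij) ?_), fun n => by dsimp only; rw [e]; exact h1 _⟩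
  show _ ∈ (z (i + 1)).1.1
  rw [e]
  exact Or.inl hc.symm

theorem dich (hd : d = 3 ∨ d = 4) {Z : Type} [MeasurableSpace Z] (π : ℝ≥0 → Measure Z)
    [∀ v, IsProbabilityMeasure (π v)] {H : Z → Finset (V d) → Prop}
    (hH : ∀ A, MeasurableSet {z | H z A}) {m : ℕ → ℝ≥0∞} (hm : ∑' n, m n = 1)
    (up : ∀ v A, π v {z | H z A} ≤ v * ν d m {A})
    (low : ∀ v, 0 < v → ∃ c : ℝ, 0 < c ∧ ∀ T : Finset (Finset (V d)),
      π v {z | ∀ A ∈ T, ¬ H z A} ≤ ENNReal.ofReal (Real.exp (-(c * (ν d m T).toReal))))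
    {β c C : ℝ} (hc : 0 < c) (hC : 0 < C) (h : ∀ n : ℕ, ENNReal.ofReal (c * (n + 1 : ℝ) ^ (-β)) ≤
      m n ∧ m n ≤ ENNReal.ofReal (C * (n + 1 : ℝ) ^ (-β))) :
    (∃ v : ℝ≥0, 0 < v ∧ PP (π v) _ (Perc H Set.univ) = 0) ↔ 1 + d / 2 ≤ β := by
  refine ⟨fun ⟨v, h1, h2⟩ => not_lt.1 fun hb => ?_, fun hb => ?_⟩
  · obtain ⟨c', h3, h4⟩ := low v h1
    have := supercritical (π v) hH hm h3 h4 hd ENNReal.coe_ne_top (up v) hc hb fun n => (h n).1
    obtain ⟨ω, h5, h6⟩ := (this.and (measure_eq_zero_iff_ae_notMem.1 h2)).exists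
    exact h6 h5
  · set B : ℝ≥0∞ := 4 * 41 ^ (2 * d) * (7 ^ d + 2 * 63 ^ d * ENNReal.ofReal (127 * C)) with hB
    have h1 : B ≠ 0 := by simp [hB]
    have h2 : B ≠ ⊤ := by finiteness
    refine ⟨B⁻¹.toNNReal, ENNReal.toNNReal_pos (by simpa) (by simpa),
      subcritical _ hH hm (up _) hd hC.le (fun n => (h n).2.trans (ENNReal.ofReal_le_ofReal ?_)) ?_⟩
    · rw [Real.sqrt_eq_rpow, ← Real.rpow_natCast, ← Real.rpow_mul (by positivity), div_eq_mul_inv,
        ← Real.rpow_neg (by positivity)]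
      gcongr
      · linarith [n.cast_nonneg (α := ℝ)]
      · push_cast; linarith
    · rw [ENNReal.coe_toNNReal (by simpa), mul_left_comm, ENNReal.inv_mul_cancel h1 h2]

lemma σ_tr (n : ℕ) (A : Finset (V d)) (F : Finset (Fin n → S d)) (h : ∀ s, s ∈ F ↔
    ∀ x, (∃ t ∈ range (n + 1), ∑ i ∈ univ.filter fun i : Fin n => (i : ℕ) < t, st (s i) = x) ↔
      x ∈ A) : σ d (tr n ⁻¹' {A}) = F.card * ((d : ℝ≥0∞)⁻¹ * 2⁻¹) ^ n := by
  have h1 : MeasurePreserving (fun (ω : ℕ → S d) (i : Fin n) => ω i) (σ d)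
      (Measure.infinitePi fun _ => u d) :=
    ⟨by fun_prop, Measure.map_infinitePi_infinitePi_of_inj Fin.val_injective⟩
  have h2 : tr n ⁻¹' {A} = (fun (ω : ℕ → S d) (i : Fin n) => ω i) ⁻¹' F := by
    ext ω
    simp only [Set.mem_preimage, Set.mem_singleton_iff, mem_coe, h, Finset.ext_iff, tr, mem_image]
    refine forall_congr' fun x => iff_congr (exists_congr fun t => and_congr_right fun ht => ?_)
      Iff.rfl
    rw [sum_filter, Fin.sum_univ_eq_sum_range (fun k => if k < t then st (ω k) else 0) n,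
      ← sum_filter, show (range n).filter (· < t) = range t by
        ext; simp only [mem_filter, mem_range] at ht ⊢; omega, X]
  rw [h2, h1.measure_preimage (MeasurableSet.nullMeasurableSet .of_discrete),
    ← sum_measure_singleton]
  simp [u_single]

end Pool.Agent.H.MP_b9fdbf_pr
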